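import Pool.Agent.H2TV.Tie
import Pool.Agent.H2TV.LocK
import Pool.Agent.H1TV.FlxK
import Pool.Agent.H1TV.LipK
import Pool.Agent.H1TV.CvK
import Pool.Agent.H1TV.Lk2
import Pool.Agent.H1CV.GoodT
import Pool.Agent.H1CV.VelT
import Pool.Agent.H1CV.Scl
import Pool.Agent.H2VL.Fin2

/-!
Project TV: at the singular points the vortex lines are not nearly straight up to a function of small
flux.
-/

set_option autoImplicit false

open MeasureTheory Set Metric Filter Topology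
open H459R3.NS Pool.Agent.W268.NS Pool.Agent.Q67.VD

namespace Pool.Agent.H2TV

open Pool.Agent.Q85.CC Pool.Agent.Q85.CL Pool.Agent.Q85.VL
open Pool.Agent.H1TV (StrK StrA)

theorem tvK : StmTvK := by
  obtain ⟨C, hC, hF⟩ := flxK_of H1TV.flxK
  exact tvP1 H1TV.strK_mono Pool.Agent.Q284.CL.velL stmEnL stmEnS Pool.Agent.Q95.CL.regK
    Pool.Agent.Q81.CL.l1L Pool.Agent.H1CV.goodT Pool.Agent.H1CV.velT (morK hC hF)
    (pinK hC hF) (H1TV.cvK H1TV.flxK) H1TV.lk (Pool.Agent.H1CV.shlR H2CV.shl)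

/-- The regularity of the vorticity and the property of the arcs. -/
def BendsC (T : ℝ) (Ω : Set V) (u : ℝ → V → V) (a : V) : Prop :=
  BendsL T Ω u a ∧ IsOpen Ω ∧ ∀ t ∈ Ioo 0 T, ContDiffOn ℝ 1 (vort (u t)) Ω

theorem bendsC_of {T : ℝ} {Ω : Set V} {u : ℝ → V → V} {a : V} (hΩ : IsOpen Ω)
    (hu : ∀ t ∈ Ioo 0 T, ContDiffOn ℝ 1 (vort (u t)) Ω) (h : BendsK T Ω u a) : BendsC T Ω u a :=
  ⟨bendsL (fun t ht => om_contOn (hu t ht)) h, hΩ, hu⟩

theorem bendsK_D {ν T E : ℝ} {Ω : Set V} {u : ℝ → V → V} {p : ℝ → V → ℝ} (hν : 0 < ν)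
    (h : DSl ν T E Ω u p) {a : V} (ha : a ∈ Ω) (hs : Sing T u a) : BendsC T Ω u a :=
  bendsC_of h.openO (fun _ ht => slice_cdOn h.openO h.smooth_u ht)
    (bendsKD tvK Pool.Agent.Q284.CL.dom hν h ha hs)

theorem bendsK_W {ν T E : ℝ} {u : ℝ → V → V} {p : ℝ → V → ℝ} (hν : 0 < ν) (h : WSl ν T E u p) :
    (Blow T u → ∃ a, Sing T u a) ∧ ∀ a, Sing T u a → BendsC T univ u a := by
  have h1 := bendsKW tvK Pool.Agent.Q284.CL.dom Pool.Agent.Q95.CL.far Pool.Agent.Q285.CL.wsc hν h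
  exact ⟨h1.1, fun a hs => bendsC_of isOpen_univ
    (fun _ ht => slice_cdOn isOpen_univ h.smooth_u ht) (h1.2 a hs)⟩

theorem bendsK_P {ν T : ℝ} {u : ℝ → V → V} {p : ℝ → V → ℝ} (hν : 0 < ν) (h : IsSol ν T u p) :
    (Blow T u → ∃ a, Sing T u a) ∧ ∀ a, Sing T u a → BendsC T univ u a := by
  have h1 := bendsKP tvK Pool.Agent.Q284.CL.dom hν h
  exact ⟨h1.1, fun a hs => bendsC_of isOpen_univ (fun _ ht => slice_cdOn isOpen_univ
    (h.smooth_u.mono (prod_mono Ioo_subset_Ico_self subset_rfl)) ht) (h1.2 a hs)⟩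

end Pool.Agent.H2TV
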