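import Pool.Agent.H2TV.Arc

/-!
Project TV: arcs of the vortex lines which are nearly straight: the distance of the end points is
nearly the length.
-/

set_option autoImplicit false

open MeasureTheory Set Metric Filter Topology
open scoped ContDiff
open H459R3.NS Pool.Agent.W268.NS Pool.Agent.Q67.VD

namespace Pool.Agent.H2TV

open Pool.Agent.Q85.CC Pool.Agent.Q85.CL Pool.Agent.Q85.VL Pool.Agent.Q151.CC
open Pool.Agent.H1CV (dot_le_len' len_sq' len_le_norm norm_le_len md md_pos md_sq len_le_md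
  len_pos_of_ne len_cross_le)
open Pool.Agent.H1TV

/-- The arcs of the vortex lines in `D` are nearly straight. -/
def Str (v : V → V) (D : Set V) (ε : ℝ) : Prop :=
  ∀ p q l, Arc (vort v) D p q l → (1 - ε) * l ≤ len (q - p)

lemma Str.mono {v : V → V} {D D' : Set V} {ε : ℝ} (h : Str v D ε) (hD : D' ⊆ D) : Str v D' ε := by
  rintro p q l ⟨hl, γ, h0, h1, h2⟩
  exact h p q l ⟨hl, γ, h0, h1, fun s hs => ⟨hD (h2 s hs).1, (h2 s hs).2⟩⟩

lemma Str.weaken {v : V → V} {D : Set V} {ε ε' : ℝ} (h : Str v D ε) (hε : ε ≤ ε') :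
    Str v D ε' := by
  intro p q l hA
  have h1 := h p q l hA
  have := mul_le_mul_of_nonneg_right hε hA.1.le
  linarith

/-- Sub-arcs. -/
lemma str_sub {v : V → V} {D : Set V} {ε l s₁ s₂ : ℝ} {γ : ℝ → V} (hT : Str v D ε)
    (hγ : Cur v D γ l) (h0 : 0 ≤ s₁) (h12 : s₁ ≤ s₂) (h2 : s₂ ≤ l) :
    (1 - ε) * (s₂ - s₁) ≤ len (γ s₂ - γ s₁) := by
  rcases h12.eq_or_lt with h | h
  · rw [h, sub_self, sub_self, mul_zero]
    exact len_nonneg _
  · have h3 := hT (γ s₁) (γ s₂) (s₂ - s₁) ⟨by linarith, fun s => γ (s₁ + s), by simp, by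
      show γ (s₁ + (s₂ - s₁)) = γ s₂
      congr 1
      ring, fun s hs => ?_⟩
    · exact h3
    · have h4 := hγ (s₁ + s) ⟨by linarith [hs.1], by linarith [hs.2]⟩
      refine ⟨h4.1, ?_⟩
      have h5 : HasDerivWithinAt (fun s : ℝ => s₁ + s) 1 (Icc 0 (s₂ - s₁)) s :=
        (hasDerivWithinAt_id s _).const_add s₁
      have h6 := h4.2.scomp s h5 (fun s' hs' => ⟨by linarith [hs'.1], by linarith [hs'.2]⟩)
      rw [one_smul] at h6
      exact h6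

lemma nearS {v : V → V} {D : Set V} {ε l s₁ s₂ r : ℝ} {γ : ℝ → V} {x : V} (hT : Str v D ε)
    (hε : ε ≤ 1 / 2) (hγ : Cur v D γ l) (h0 : 0 ≤ s₁)
    (h12 : s₁ ≤ s₂) (h2 : s₂ ≤ l) (hx1 : ‖γ s₁ - x‖ ≤ r) (hx2 : ‖γ s₂ - x‖ ≤ r) :
    s₂ - s₁ ≤ 8 * r := by
  have h3 := str_sub hT hγ h0 h12 h2
  have h5 := len_le_norm (γ s₂ - γ s₁)
  have h6 : ‖γ s₂ - γ s₁‖ ≤ 2 * r := by
    have e : γ s₂ - γ s₁ = (γ s₂ - x) - (γ s₁ - x) := by abel
    rw [e]
    exact (norm_sub_le _ _).trans (by linarith)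
  nlinarith

/-- The length of the arcs. -/
lemma arc_lengthS {v : V → V} {x : V} {R m ε l : ℝ} {γ : ℝ → V} (hT : Str v (Dm v x R m) ε)
    (hε : ε ≤ 1 / 2) (hl : 0 < l) (hγ : Cur v (Dm v x R m) γ l) : l ≤ 8 * R := by
  have h1 := nearS (s₁ := 0) (s₂ := l) (r := R) (x := x) hT hε hγ
    le_rfl hl.le le_rfl (hγ 0 ⟨le_rfl, hl.le⟩).1.1 (hγ l ⟨hl.le, le_rfl⟩).1.1
  linarith

/-- The integral of the weight of the small cube along the arcs. -/
lemma hb_arcS {v : V → V} {D : Set V} {ε l ρ : ℝ} {γ : ℝ → V} {x : V} (hT : Str v D ε)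
    (hε : ε ≤ 1 / 2) (hl : 0 < l) (hγ : Cur v D γ l) (hρ : 0 < ρ) :
    ∫ s in (0 : ℝ)..l, hb x ρ (γ s) ≤ 16 := by
  obtain ⟨S, hS⟩ : ∃ S : Set ℝ, S = {s ∈ Icc 0 l | ‖γ s - x‖ < 2 * ρ} := ⟨_, rfl⟩
  have hsub : S ⊆ Icc 0 l := by
    rw [hS]
    exact sep_subset _ _
  have hdist : ∀ s ∈ S, ∀ s' ∈ S, edist s s' ≤ ENNReal.ofReal (16 * ρ) := by
    have key : ∀ s ∈ S, ∀ s' ∈ S, s ≤ s' → s' - s ≤ 16 * ρ := by
      intro s hs s' hs' hss
      rw [hS] at hs hs'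
      have := nearS hT hε hγ hs.1.1 hss hs'.1.2 hs.2.le hs'.2.le
      linarith
    intro s hs s' hs'
    rw [edist_dist, Real.dist_eq]
    refine ENNReal.ofReal_le_ofReal ?_
    rcases le_total s s' with h | h
    · rw [abs_sub_comm, abs_of_nonneg (by linarith)]
      exact key s hs s' hs' h
    · rw [abs_of_nonneg (by linarith)]
      exact key s' hs' s hs h
  have hvol : volume S ≤ ENNReal.ofReal (16 * ρ) :=
    (Real.volume_le_diam S).trans (Metric.ediam_le hdist)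
  rw [intervalIntegral.integral_of_le hl.le, ← integral_Icc_eq_integral_Ioc,
    setIntegral_eq_of_subset_of_forall_sdiff_eq_zero measurableSet_Icc hsub (fun s hs => ?_)]
  · have h1 := norm_setIntegral_le_of_norm_le_const (f := fun s => hb x ρ (γ s)) (C := 1 / ρ)
      (s := S) (μ := volume) (hvol.trans_lt ENNReal.ofReal_lt_top) (fun s _ => by
        rw [Real.norm_eq_abs, abs_of_nonneg (hb_nonneg x hρ _)]
        exact hb_le x hρ _)
    have h2 : volume.real S ≤ 16 * ρ := ENNReal.toReal_le_of_le_ofReal (by positivity) hvol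
    calc ∫ s in S, hb x ρ (γ s) ≤ ‖∫ s in S, hb x ρ (γ s)‖ := le_abs_self _
      _ ≤ 1 / ρ * volume.real S := h1
      _ ≤ 1 / ρ * (16 * ρ) := mul_le_mul_of_nonneg_left h2 (by positivity)
      _ = 16 := by field_simp
  · refine hb_zero hρ ?_
    by_contra hc
    exact hs.2 (by rw [hS]; exact ⟨hs.1, not_le.1 hc⟩)

lemma dot_le_one {a b : V} (ha : a ⬝ᵥ a = 1) (hb : b ⬝ᵥ b = 1) : a ⬝ᵥ b ≤ 1 := by
  have h := dot_nn (a - b)
  have e : (a - b) ⬝ᵥ (a - b) = a ⬝ᵥ a + b ⬝ᵥ b - 2 * (a ⬝ᵥ b) := by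
    simp only [dot3, Pi.sub_apply]
    ring
  rw [e, ha, hb] at h
  linarith

/-- The pointwise inequality. -/
lemma hq_ptS {v : V → V} {x y e : V} {ρ m : ℝ} (hρ : 0 < ρ) (hy : 0 < om v y)
    (he : e ⬝ᵥ e = 1) :
    hq v x ρ m y ≤ 2 * ((e ⬝ᵥ xi v y) / md ρ (y - x)
      - (e ⬝ᵥ (y - x)) * ((y - x) ⬝ᵥ xi v y) / md ρ (y - x) ^ 3)
        + 2 / ρ * (1 - e ⬝ᵥ xi v y) := by
  obtain ⟨z, hz⟩ : ∃ z, z = y - x := ⟨_, rfl⟩
  obtain ⟨N, hN⟩ : ∃ N, N = md ρ z := ⟨_, rfl⟩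
  have hN0 : 0 < N := by rw [hN]; exact md_pos hρ z
  have hN2 : N ^ 2 = z ⬝ᵥ z + ρ ^ 2 := by rw [hN]; exact md_sq ρ z
  have hρN : ρ ≤ N := by
    have := dot_nn z
    nlinarith
  have h1 : hq v x ρ m y
      ≤ (crossProduct z (xi v y) ⬝ᵥ crossProduct z (xi v y)) / N ^ 3 := by
    unfold hq
    rw [← hz, ← hN]
    refine div_le_div_of_nonneg_right ?_ (by positivity)
    have e1 : crossProduct z (xi v y) ⬝ᵥ crossProduct z (xi v y)
        = (crossProduct z (vort v y) ⬝ᵥ crossProduct z (vort v y)) / om v y ^ 2 := by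
      unfold xi
      rw [map_smul, smul_dotProduct, dotProduct_smul, smul_eq_mul, smul_eq_mul]
      field_simp
    rw [e1]
    have e2 : vort v y ⬝ᵥ vort v y = om v y ^ 2 := (len_sq' _).symm
    rw [e2]
    exact div_le_div_of_nonneg_left (dot_nn _) (by positivity) (by nlinarith [sq_nonneg m])
  rw [← hz, ← hN]
  refine h1.trans ?_
  have hx1 := xi_unit hy
  have hlag := Pool.Agent.H1CV.lagr z e (xi v y)
  -- Young
  obtain ⟨A, hA⟩ : ∃ A, A = crossProduct z (xi v y) ⬝ᵥ crossProduct z (xi v y) := ⟨_, rfl⟩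
  obtain ⟨δ, hδ⟩ : ∃ δ, δ = 1 - e ⬝ᵥ xi v y := ⟨_, rfl⟩
  have hδ0 : 0 ≤ δ := by rw [hδ]; linarith [dot_le_one he hx1]
  have hd2 : (xi v y - e) ⬝ᵥ (xi v y - e) = 2 * δ := by
    have e1 : (xi v y - e) ⬝ᵥ (xi v y - e) = xi v y ⬝ᵥ xi v y + e ⬝ᵥ e - 2 * (e ⬝ᵥ xi v y) := by
      simp only [dot3, Pi.sub_apply]
      ring
    rw [e1, hx1, he, hδ]
    ring
  have hB : crossProduct z (xi v y - e) ⬝ᵥ crossProduct z (xi v y - e) ≤ (z ⬝ᵥ z) * (2 * δ) := by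
    have h2 := Pool.Agent.H1CV.lagr2 z (xi v y - e)
    rw [hd2] at h2
    nlinarith [sq_nonneg (z ⬝ᵥ (xi v y - e))]
  have hsplit : crossProduct z e ⬝ᵥ crossProduct z (xi v y)
      = A - crossProduct z (xi v y - e) ⬝ᵥ crossProduct z (xi v y) := by
    rw [hA, map_sub, sub_dotProduct]
    ring
  have hY : crossProduct z (xi v y - e) ⬝ᵥ crossProduct z (xi v y)
      ≤ A / 2 + (z ⬝ᵥ z) * δ := by
    have h2 := dot_nn (crossProduct z (xi v y - e) - crossProduct z (xi v y))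
    have e1 : (crossProduct z (xi v y - e) - crossProduct z (xi v y))
          ⬝ᵥ (crossProduct z (xi v y - e) - crossProduct z (xi v y))
        = crossProduct z (xi v y - e) ⬝ᵥ crossProduct z (xi v y - e)
          + crossProduct z (xi v y) ⬝ᵥ crossProduct z (xi v y)
          - 2 * (crossProduct z (xi v y - e) ⬝ᵥ crossProduct z (xi v y)) := by
      simp only [dot3, Pi.sub_apply]
      ring
    rw [e1, ← hA] at h2
    linarith
  have h6 : (e ⬝ᵥ xi v y) / N - (e ⬝ᵥ z) * (z ⬝ᵥ xi v y) / N ^ 3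
      = (ρ ^ 2 * (e ⬝ᵥ xi v y) + crossProduct z e ⬝ᵥ crossProduct z (xi v y)) / N ^ 3 := by
    rw [← hlag, dotProduct_comm z e]
    have e3 : ρ ^ 2 = N ^ 2 - z ⬝ᵥ z := by linarith
    rw [e3]
    field_simp
    ring
  rw [h6, ← hA, ← hδ]
  have h7 : A / 2 - N ^ 2 * δ ≤ ρ ^ 2 * (e ⬝ᵥ xi v y)
      + crossProduct z e ⬝ᵥ crossProduct z (xi v y) := by
    rw [hsplit]
    have e3 : e ⬝ᵥ xi v y = 1 - δ := by rw [hδ]; ring
    rw [e3, hN2]
    nlinarith [sq_nonneg ρ]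
  have h8 : N ^ 2 * δ / N ^ 3 ≤ δ / ρ := by
    rw [div_le_div_iff₀ (by positivity) hρ]
    calc N ^ 2 * δ * ρ = N ^ 2 * δ * ρ := rfl
      _ ≤ N ^ 2 * δ * N := mul_le_mul_of_nonneg_left hρN (by positivity)
      _ = δ * N ^ 3 := by ring
  have h9 : A / N ^ 3 ≤ 2 * ((ρ ^ 2 * (e ⬝ᵥ xi v y)
      + crossProduct z e ⬝ᵥ crossProduct z (xi v y)) / N ^ 3) + 2 * (N ^ 2 * δ / N ^ 3) := by
    rw [mul_div_assoc', mul_div_assoc', ← add_div]
    refine div_le_div_of_nonneg_right ?_ (by positivity)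
    linarith
  have h10 : 2 / ρ * δ = 2 * (δ / ρ) := by ring
  rw [h10]
  linarith

/-- The integral of the radial weight along the arcs. -/
lemma hq_arcS {v : V → V} (hv : SM v) {D : Set V} {ε l ρ m ℓ : ℝ} {γ : ℝ → V} {x : V}
    (hT : Str v D ε) (hε : ε ≤ 1 / 2) (hl : 0 < l) (hD : ∀ y ∈ D, 0 < om v y)
    (hγ : Cur v D γ l) (hε0 : 0 ≤ ε) (hρ : 0 < ρ) (hm : 0 < m) (hℓ : l ≤ ℓ) :
    ∫ s in (0 : ℝ)..l, hq v x ρ m (γ s) ≤ 4 + 2 * ε * ℓ / ρ := by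
  -- the direction of the chord
  have hch := str_sub hT hγ le_rfl hl.le le_rfl
  rw [sub_zero] at hch
  have hch0 : 0 < len (γ l - γ 0) := lt_of_lt_of_le (by nlinarith) hch
  obtain ⟨e, he⟩ : ∃ e, e = (len (γ l - γ 0))⁻¹ • (γ l - γ 0) := ⟨_, rfl⟩
  have he1 : e ⬝ᵥ e = 1 := by
    rw [he, smul_dotProduct, dotProduct_smul, ← len_sq', smul_eq_mul, smul_eq_mul]
    field_simp
  have hec : e ⬝ᵥ (γ l - γ 0) = len (γ l - γ 0) := by
    rw [he, smul_dotProduct, ← len_sq', smul_eq_mul]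
    field_simp
  have hcont := cur_cont hγ
  have hder : ∀ s ∈ Icc 0 l, HasDerivWithinAt
      (fun s => 2 * ((e ⬝ᵥ (γ s - x)) / md ρ (γ s - x)) + 2 / ρ * (s - e ⬝ᵥ γ s))
      (2 * ((e ⬝ᵥ xi v (γ s)) / md ρ (γ s - x)
        - (e ⬝ᵥ (γ s - x)) * ((γ s - x) ⬝ᵥ xi v (γ s)) / md ρ (γ s - x) ^ 3)
          + 2 / ρ * (1 - e ⬝ᵥ xi v (γ s)))
      (Icc 0 l) s := by
    intro s hs
    have h1 := (quo_deriv (hγ s hs).2 x e hρ).const_mul 2
    have h2 := ((hasDerivWithinAt_id s (Icc 0 l)).sub (dot_deriv (hγ s hs).2 e)).const_mul (2 / ρ)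
    exact h1.add h2
  have h1 := intervalIntegral.integral_le_sub_of_hasDeriv_right_of_le (a := 0) (b := l)
    (φ := fun s => hq v x ρ m (γ s)) hl.le
    (fun s hs => (hder s hs).continuousWithinAt)
    (fun s hs => ((hder s (Ioo_subset_Icc_self hs)).hasDerivAt
      (Icc_mem_nhds hs.1 hs.2)).hasDerivWithinAt)
    (((hq_smooth hv x hρ hm).continuous.comp_continuousOn hcont).integrableOn_compact isCompact_Icc)
    (fun s hs => hq_ptS hρ (hD _ (hγ s (Ioo_subset_Icc_self hs)).1) he1)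
  refine h1.trans ?_
  have hb : ∀ y : V, |(e ⬝ᵥ (y - x)) / md ρ (y - x)| ≤ 1 := by
    intro y
    have h2 := dot_le_len' e (y - x)
    have h3 : len e = 1 := by rw [len, he1, Real.sqrt_one]
    rw [h3, one_mul] at h2
    rw [abs_div, abs_of_pos (md_pos hρ _), div_le_one (md_pos hρ _)]
    exact h2.trans (len_le_md _ _)
  have h2 := abs_le.1 (hb (γ l))
  have h3 := abs_le.1 (hb (γ 0))
  have h4 : 2 / ρ * (l - e ⬝ᵥ γ l) - 2 / ρ * (0 - e ⬝ᵥ γ 0) ≤ 2 * ε * ℓ / ρ := by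
    have e2 : e ⬝ᵥ (γ l - γ 0) = e ⬝ᵥ γ l - e ⬝ᵥ γ 0 := dotProduct_sub _ _ _
    have e1 : 2 / ρ * (l - e ⬝ᵥ γ l) - 2 / ρ * (0 - e ⬝ᵥ γ 0)
        = 2 / ρ * (l - len (γ l - γ 0)) := by
      rw [← hec, e2]
      ring
    rw [e1, div_mul_eq_mul_div]
    refine div_le_div_of_nonneg_right ?_ hρ.le
    have h5 : ε * l ≤ ε * ℓ := mul_le_mul_of_nonneg_left hℓ hε0
    linarith
  linarith

end Pool.Agent.H2TV
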