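import Pool.Agent.H2TV.StrP
import Pool.Agent.H2TV.FinS
import Pool.Agent.H1TV.Loc
import Pool.Agent.H1TV.Flx
import Pool.Agent.H1TV.Lk2
import Pool.Agent.H1TV.CvS
import Pool.Agent.H1CV.GoodT
import Pool.Agent.H1CV.VelT
import Pool.Agent.H1CV.Scl
import Pool.Agent.H2VL.Fin2

/-!
Project TV: the vortex lines are not nearly straight at the singular points.
-/

set_option autoImplicit false

open MeasureTheory Set Metric Filter Topology
open H459R3.NS Pool.Agent.W268.NS Pool.Agent.Q67.VD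

namespace Pool.Agent.H2TV

open Pool.Agent.Q85.CC Pool.Agent.Q85.CL Pool.Agent.Q85.VL

lemma strMono : H1TV.PMono Str := fun _ _ _ _ _ h hD hε => (h.mono hD).weaken hε

theorem tvS : StmTvS :=
  H1TV.tvP strMono Pool.Agent.Q284.CL.velL stmEnL stmEnS Pool.Agent.Q95.CL.regK
    Pool.Agent.Q81.CL.l1L Pool.Agent.H1CV.goodT Pool.Agent.H1CV.velT (morS H1TV.flx)
    (pinS H1TV.flx) H1TV.cvS H1TV.lk (Pool.Agent.H1CV.shlR H2CV.shl)

theorem bends_D {ν T E : ℝ} {Ω : Set V} {u : ℝ → V → V} {p : ℝ → V → ℝ} (hν : 0 < ν)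
    (h : DSl ν T E Ω u p) {a : V} (ha : a ∈ Ω) (hs : Sing T u a) : BendsAt T u a :=
  bendsD tvS Pool.Agent.Q284.CL.dom hν h ha hs

theorem bends_W {ν T E : ℝ} {u : ℝ → V → V} {p : ℝ → V → ℝ} (hν : 0 < ν) (h : WSl ν T E u p) :
    (Blow T u → ∃ a, Sing T u a) ∧ ∀ a, Sing T u a → BendsAt T u a :=
  bendsW tvS Pool.Agent.Q284.CL.dom Pool.Agent.Q95.CL.far Pool.Agent.Q285.CL.wsc hν h

theorem bends_P {ν T : ℝ} {u : ℝ → V → V} {p : ℝ → V → ℝ} (hν : 0 < ν) (h : IsSol ν T u p) :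
    (Blow T u → ∃ a, Sing T u a) ∧ ∀ a, Sing T u a → BendsAt T u a :=
  bendsP tvS Pool.Agent.Q284.CL.dom hν h

end Pool.Agent.H2TV
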