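import Pool.Agent.H1CV.Pin
import Pool.Agent.H1TV.Defs

/-!
Project TV: arcs of the vortex lines along which the direction turns little.
-/

set_option autoImplicit false

open MeasureTheory Set Metric Filter Topology
open scoped ContDiff
open H459R3.NS Pool.Agent.W268.NS Pool.Agent.Q67.VD

namespace Pool.Agent.H2TV

open Pool.Agent.Q85.CC Pool.Agent.Q85.CL Pool.Agent.Q85.VL Pool.Agent.Q151.CC
open Pool.Agent.H1CV (dot_le_len' len_sq' len_le_norm norm_le_len md md_pos md_sq len_le_md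
  len_pos_of_ne len_cross_le)
open Pool.Agent.H1TV

/-- An arc of a vortex line in `D`, parametrized by the length. -/
def Cur (v : V → V) (D : Set V) (γ : ℝ → V) (l : ℝ) : Prop :=
  ∀ s ∈ Icc (0 : ℝ) l, γ s ∈ D ∧
    HasDerivWithinAt γ ((len (vort v (γ s)))⁻¹ • vort v (γ s)) (Icc 0 l) s

lemma dot_deriv {γ : ℝ → V} {g : V} {S : Set ℝ} {s : ℝ} (h : HasDerivWithinAt γ g S s) (e : V) :
    HasDerivWithinAt (fun s => e ⬝ᵥ γ s) (e ⬝ᵥ g) S s := by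
  have hi := hasDerivWithinAt_pi.1 h
  have h1 := (((hi 0).const_mul (e 0)).add ((hi 1).const_mul (e 1))).add ((hi 2).const_mul (e 2))
  have e1 : (fun s => e ⬝ᵥ γ s) = fun s => e 0 * γ s 0 + e 1 * γ s 1 + e 2 * γ s 2 := by
    funext s
    rw [dot3]
  rw [e1, dot3]
  exact h1

lemma dotself_deriv {γ : ℝ → V} {g : V} {S : Set ℝ} {s : ℝ} (h : HasDerivWithinAt γ g S s) (x : V) :
    HasDerivWithinAt (fun s => (γ s - x) ⬝ᵥ (γ s - x)) (2 * ((γ s - x) ⬝ᵥ g)) S s := by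
  have hi : ∀ i : Fin 3, HasDerivWithinAt (fun s => γ s i - x i) (g i) S s := fun i =>
    (hasDerivWithinAt_pi.1 h i).sub_const (x i)
  have h1 := (((hi 0).mul (hi 0)).add ((hi 1).mul (hi 1))).add ((hi 2).mul (hi 2))
  have e1 : (fun s => (γ s - x) ⬝ᵥ (γ s - x)) = fun s => (γ s 0 - x 0) * (γ s 0 - x 0)
      + (γ s 1 - x 1) * (γ s 1 - x 1) + (γ s 2 - x 2) * (γ s 2 - x 2) := by
    funext s
    rw [dot3]
    simp only [Pi.sub_apply]
  have e2 : 2 * ((γ s - x) ⬝ᵥ g) = g 0 * (γ s 0 - x 0) + (γ s 0 - x 0) * g 0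
      + (g 1 * (γ s 1 - x 1) + (γ s 1 - x 1) * g 1)
      + (g 2 * (γ s 2 - x 2) + (γ s 2 - x 2) * g 2) := by
    rw [dot3]
    simp only [Pi.sub_apply]
    ring
  rw [e1, e2]
  exact h1

lemma md_deriv {γ : ℝ → V} {g : V} {S : Set ℝ} {s : ℝ} (h : HasDerivWithinAt γ g S s) (x : V)
    {ρ : ℝ} (hρ : 0 < ρ) :
    HasDerivWithinAt (fun s => md ρ (γ s - x)) (((γ s - x) ⬝ᵥ g) / md ρ (γ s - x)) S s := by
  have h1 := ((dotself_deriv h x).add_const (ρ ^ 2)).sqrt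
    (by have := dot_nn (γ s - x); positivity)
  unfold md
  convert h1 using 1
  rw [mul_div_mul_left _ _ (by norm_num : (2 : ℝ) ≠ 0)]

lemma quo_deriv {γ : ℝ → V} {g : V} {S : Set ℝ} {s : ℝ} (h : HasDerivWithinAt γ g S s) (x e : V)
    {ρ : ℝ} (hρ : 0 < ρ) :
    HasDerivWithinAt (fun s => (e ⬝ᵥ (γ s - x)) / md ρ (γ s - x))
      ((e ⬝ᵥ g) / md ρ (γ s - x)
        - (e ⬝ᵥ (γ s - x)) * ((γ s - x) ⬝ᵥ g) / md ρ (γ s - x) ^ 3) S s := by
  have h0 : HasDerivWithinAt (fun s => γ s - x) g S s := h.sub_const x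
  have hN := md_pos hρ (γ s - x)
  have h1 := (dot_deriv h0 e).div (md_deriv h x hρ) hN.ne'
  have e2 : (e ⬝ᵥ g) / md ρ (γ s - x) - (e ⬝ᵥ (γ s - x)) * ((γ s - x) ⬝ᵥ g) / md ρ (γ s - x) ^ 3
      = ((e ⬝ᵥ g) * md ρ (γ s - x) - (e ⬝ᵥ (γ s - x)) * (((γ s - x) ⬝ᵥ g) / md ρ (γ s - x)))
        / md ρ (γ s - x) ^ 2 := by
    field_simp
  rw [e2]
  exact h1

/-- The direction along an arc. -/
lemma turn_le {v : V → V} {D : Set V} {ε l s : ℝ} {γ : ℝ → V} (hT : Turn v D ε) (hl : 0 < l)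
    (hγ : Cur v D γ l) (hs : s ∈ Icc 0 l) : len (xi v (γ s) - xi v (γ 0)) ≤ ε := by
  have key : ∀ s, 0 < s → s ≤ l → len (xi v (γ s) - xi v (γ 0)) ≤ ε := by
    intro s hs0 hsl
    exact hT (γ 0) (γ s) s ⟨hs0, γ, rfl, rfl, fun s' hs' => ⟨(hγ s' ⟨hs'.1, hs'.2.trans hsl⟩).1,
      (hγ s' ⟨hs'.1, hs'.2.trans hsl⟩).2.mono (Icc_subset_Icc_right hsl)⟩⟩
  rcases eq_or_lt_of_le hs.1 with h | h
  · rw [← h, sub_self]
    have h1 := (len_nonneg _).trans (key l hl le_rfl)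
    have h2 : len (0 : V) = 0 := by simp [len]
    rw [h2]
    exact h1
  · exact key s h hs.2

lemma xi_unit {v : V → V} {y : V} (h : 0 < om v y) : xi v y ⬝ᵥ xi v y = 1 := by
  unfold xi
  have h1 : vort v y ⬝ᵥ vort v y = om v y ^ 2 := (len_sq' _).symm
  rw [smul_dotProduct, dotProduct_smul, h1, smul_eq_mul, smul_eq_mul]
  field_simp

lemma xi_len {v : V → V} {y : V} (h : 0 < om v y) : len (xi v y) = 1 := by
  unfold len
  rw [xi_unit h, Real.sqrt_one]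

/-- Unit vectors. -/
lemma dot_ge {a b : V} {ε : ℝ} (ha : a ⬝ᵥ a = 1) (hb : b ⬝ᵥ b = 1) (h : len (b - a) ≤ ε) :
    1 - ε ^ 2 / 2 ≤ a ⬝ᵥ b := by
  have h1 : (b - a) ⬝ᵥ (b - a) ≤ ε ^ 2 := by
    rw [← len_sq']
    exact pow_le_pow_left₀ (len_nonneg _) h 2
  have h2 : (b - a) ⬝ᵥ (b - a) = b ⬝ᵥ b + a ⬝ᵥ a - 2 * (a ⬝ᵥ b) := by
    simp only [dot3, Pi.sub_apply]
    ring
  rw [h2, ha, hb] at h1
  linarith

/-- The component in the initial direction grows with the rate `1 / 2` at least. -/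
lemma grow {v : V → V} {D : Set V} {ε l s₁ s₂ : ℝ} {γ : ℝ → V} (hT : Turn v D ε) (hε : ε ≤ 1)
    (hl : 0 < l) (hD : ∀ y ∈ D, 0 < om v y) (hγ : Cur v D γ l) (h0 : 0 ≤ s₁) (h12 : s₁ ≤ s₂)
    (h2 : s₂ ≤ l) : (s₂ - s₁) / 2 ≤ xi v (γ 0) ⬝ᵥ (γ s₂ - γ s₁) := by
  have hpos : ∀ s ∈ Icc 0 l, 0 < om v (γ s) := fun s hs => hD _ (hγ s hs).1
  have hlow : ∀ s ∈ Icc 0 l, 1 / 2 ≤ xi v (γ 0) ⬝ᵥ xi v (γ s) := by
    intro s hs
    have h1 := turn_le hT hl hγ hs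
    have h3 := dot_ge (xi_unit (hpos 0 ⟨le_rfl, hl.le⟩)) (xi_unit (hpos s hs)) h1
    have h4 : 0 ≤ ε := (len_nonneg _).trans h1
    nlinarith
  have hder : ∀ s ∈ Icc 0 l, HasDerivWithinAt (fun s => xi v (γ 0) ⬝ᵥ γ s)
      (xi v (γ 0) ⬝ᵥ xi v (γ s)) (Icc 0 l) s := fun s hs => dot_deriv (hγ s hs).2 _
  have h5 := (convex_Icc (0 : ℝ) l).mul_sub_le_image_sub_of_le_deriv (C := 1 / 2)
    (f := fun s => xi v (γ 0) ⬝ᵥ γ s) (fun s hs => (hder s hs).continuousWithinAt)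
    (fun s hs => by
      rw [interior_Icc] at hs
      exact ((hder s (Ioo_subset_Icc_self hs)).hasDerivAt
        (Icc_mem_nhds hs.1 hs.2)).differentiableAt.differentiableWithinAt)
    (fun s hs => by
      rw [interior_Icc] at hs
      rw [((hder s (Ioo_subset_Icc_self hs)).hasDerivAt (Icc_mem_nhds hs.1 hs.2)).deriv]
      exact hlow s (Ioo_subset_Icc_self hs))
    s₁ ⟨h0, h12.trans h2⟩ s₂ ⟨h0.trans h12, h2⟩ h12
  have h6 : xi v (γ 0) ⬝ᵥ (γ s₂ - γ s₁) = xi v (γ 0) ⬝ᵥ γ s₂ - xi v (γ 0) ⬝ᵥ γ s₁ := by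
    simp only [dot3, Pi.sub_apply]
    ring
  rw [h6]
  linarith

/-- Two points of the arc in a cube. -/
lemma near {v : V → V} {D : Set V} {ε l s₁ s₂ r : ℝ} {γ : ℝ → V} {x : V} (hT : Turn v D ε)
    (hε : ε ≤ 1) (hl : 0 < l) (hD : ∀ y ∈ D, 0 < om v y) (hγ : Cur v D γ l) (h0 : 0 ≤ s₁)
    (h12 : s₁ ≤ s₂) (h2 : s₂ ≤ l) (hx1 : ‖γ s₁ - x‖ ≤ r) (hx2 : ‖γ s₂ - x‖ ≤ r) :
    s₂ - s₁ ≤ 8 * r := by
  have h3 := grow hT hε hl hD hγ h0 h12 h2
  have h4 := (le_abs_self _).trans (dot_le_len' (xi v (γ 0)) (γ s₂ - γ s₁))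
  rw [xi_len (hD _ (hγ 0 ⟨le_rfl, hl.le⟩).1), one_mul] at h4
  have h5 := len_le_norm (γ s₂ - γ s₁)
  have h6 : ‖γ s₂ - γ s₁‖ ≤ 2 * r := by
    have e : γ s₂ - γ s₁ = (γ s₂ - x) - (γ s₁ - x) := by abel
    rw [e]
    exact (norm_sub_le _ _).trans (by linarith)
  linarith

/-- The length of the arcs. -/
lemma arc_length {v : V → V} {x : V} {R m ε l : ℝ} {γ : ℝ → V} (hT : Turn v (Dm v x R m) ε)
    (hε : ε ≤ 1) (hm : 0 < m) (hl : 0 < l) (hγ : Cur v (Dm v x R m) γ l) : l ≤ 8 * R := by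
  have h1 := near (s₁ := 0) (s₂ := l) (r := R) (x := x) hT hε hl (fun y hy => hm.trans hy.2) hγ
    le_rfl hl.le le_rfl (hγ 0 ⟨le_rfl, hl.le⟩).1.1 (hγ l ⟨hl.le, le_rfl⟩).1.1
  linarith

/-- The weight of the small cube. -/
noncomputable def hb (x : V) (ρ : ℝ) (y : V) : ℝ := max 0 (min 1 (2 - ‖y - x‖ / ρ)) / ρ

lemma hb_nonneg (x : V) {ρ : ℝ} (hρ : 0 < ρ) (y : V) : 0 ≤ hb x ρ y :=
  div_nonneg (le_max_left _ _) hρ.le

lemma hb_one {x : V} {ρ : ℝ} (hρ : 0 < ρ) {y : V} (h : ‖y - x‖ ≤ ρ) : hb x ρ y = 1 / ρ := by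
  unfold hb
  have h1 : ‖y - x‖ / ρ ≤ 1 := (div_le_one hρ).2 h
  rw [min_eq_left (by linarith), max_eq_right zero_le_one]

lemma hb_le (x : V) {ρ : ℝ} (hρ : 0 < ρ) (y : V) : hb x ρ y ≤ 1 / ρ :=
  div_le_div_of_nonneg_right (max_le zero_le_one (min_le_left _ _)) hρ.le

lemma hb_zero {x : V} {ρ : ℝ} (hρ : 0 < ρ) {y : V} (h : 2 * ρ ≤ ‖y - x‖) : hb x ρ y = 0 := by
  unfold hb
  have h1 : 2 ≤ ‖y - x‖ / ρ := by rwa [le_div_iff₀ hρ]
  rw [max_eq_left, zero_div]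
  exact (min_le_right _ _).trans (by linarith)

lemma hb_lip (x : V) {ρ : ℝ} (hρ : 0 < ρ) (y z : V) :
    |hb x ρ y - hb x ρ z| ≤ 1 / ρ ^ 2 * ‖y - z‖ := by
  unfold hb
  rw [← sub_div, abs_div, abs_of_pos hρ, div_le_iff₀ hρ]
  have h1 : |max 0 (min 1 (2 - ‖y - x‖ / ρ)) - max 0 (min 1 (2 - ‖z - x‖ / ρ))|
      ≤ |(2 - ‖y - x‖ / ρ) - (2 - ‖z - x‖ / ρ)| := by
    rw [max_comm 0, max_comm 0, min_comm 1, min_comm 1]
    refine (abs_max_sub_max_le_abs _ _ _).trans ((abs_min_sub_min_le_max _ _ _ _).trans ?_)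
    rw [sub_self, abs_zero]
    exact max_le le_rfl (abs_nonneg _)
  refine h1.trans ?_
  have h2 : (2 - ‖y - x‖ / ρ) - (2 - ‖z - x‖ / ρ) = -(‖y - x‖ - ‖z - x‖) / ρ := by ring
  rw [h2, abs_div, abs_neg, abs_of_pos hρ, div_le_iff₀ hρ]
  have h3 : |‖y - x‖ - ‖z - x‖| ≤ ‖y - z‖ := by
    have := abs_norm_sub_norm_le (y - x) (z - x)
    rwa [sub_sub_sub_cancel_right] at this
  refine h3.trans (le_of_eq ?_)
  field_simp

lemma hb_cont (x : V) (ρ : ℝ) : Continuous (hb x ρ) := by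
  unfold hb
  fun_prop

lemma cur_cont {v : V → V} {D : Set V} {l : ℝ} {γ : ℝ → V} (hγ : Cur v D γ l) :
    ContinuousOn γ (Icc 0 l) := fun s hs => (hγ s hs).2.continuousWithinAt

/-- The integral of the weight of the small cube along the arcs. -/
lemma hb_arc {v : V → V} {D : Set V} {ε l ρ : ℝ} {γ : ℝ → V} {x : V} (hT : Turn v D ε)
    (hε : ε ≤ 1) (hl : 0 < l) (hD : ∀ y ∈ D, 0 < om v y) (hγ : Cur v D γ l) (hρ : 0 < ρ) :
    ∫ s in (0 : ℝ)..l, hb x ρ (γ s) ≤ 16 := by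
  obtain ⟨S, hS⟩ : ∃ S : Set ℝ, S = {s ∈ Icc 0 l | ‖γ s - x‖ < 2 * ρ} := ⟨_, rfl⟩
  have hsub : S ⊆ Icc 0 l := by
    rw [hS]
    exact sep_subset _ _
  have hdist : ∀ s ∈ S, ∀ s' ∈ S, edist s s' ≤ ENNReal.ofReal (16 * ρ) := by
    have key : ∀ s ∈ S, ∀ s' ∈ S, s ≤ s' → s' - s ≤ 16 * ρ := by
      intro s hs s' hs' hss
      rw [hS] at hs hs'
      have := near hT hε hl hD hγ hs.1.1 hss hs'.1.2 hs.2.le hs'.2.le
      linarith
    intro s hs s' hs'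
    rw [edist_dist, Real.dist_eq]
    refine ENNReal.ofReal_le_ofReal ?_
    rcases le_total s s' with h | h
    · rw [abs_sub_comm, abs_of_nonneg (by linarith)]
      exact key s hs s' hs' h
    · rw [abs_of_nonneg (by linarith)]
      exact key s' hs' s hs h
  have hvol : volume S ≤ ENNReal.ofReal (16 * ρ) :=
    (Real.volume_le_diam S).trans (Metric.ediam_le hdist)
  rw [intervalIntegral.integral_of_le hl.le, ← integral_Icc_eq_integral_Ioc,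
    setIntegral_eq_of_subset_of_forall_sdiff_eq_zero measurableSet_Icc hsub (fun s hs => ?_)]
  · have h1 := norm_setIntegral_le_of_norm_le_const (f := fun s => hb x ρ (γ s)) (C := 1 / ρ)
      (s := S) (μ := volume) (hvol.trans_lt ENNReal.ofReal_lt_top) (fun s _ => by
        rw [Real.norm_eq_abs, abs_of_nonneg (hb_nonneg x hρ _)]
        exact hb_le x hρ _)
    have h2 : volume.real S ≤ 16 * ρ := ENNReal.toReal_le_of_le_ofReal (by positivity) hvol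
    calc ∫ s in S, hb x ρ (γ s) ≤ ‖∫ s in S, hb x ρ (γ s)‖ := le_abs_self _
      _ ≤ 1 / ρ * volume.real S := h1
      _ ≤ 1 / ρ * (16 * ρ) := mul_le_mul_of_nonneg_left h2 (by positivity)
      _ = 16 := by field_simp
  · refine hb_zero hρ ?_
    by_contra hc
    exact hs.2 (by rw [hS]; exact ⟨hs.1, not_le.1 hc⟩)

/-! ### The radial weight -/

/-- The radial weight. -/
noncomputable def hq (v : V → V) (x : V) (ρ m : ℝ) (y : V) : ℝ :=
  (crossProduct (y - x) (vort v y) ⬝ᵥ crossProduct (y - x) (vort v y))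
    / (vort v y ⬝ᵥ vort v y + m ^ 2) / md ρ (y - x) ^ 3

lemma hq_nonneg (v : V → V) (x : V) {ρ : ℝ} (hρ : 0 < ρ) (m : ℝ) (y : V) : 0 ≤ hq v x ρ m y := by
  have h1 := dot_nn (crossProduct (y - x) (vort v y))
  have h2 := dot_nn (vort v y)
  have h3 := md_pos hρ (y - x)
  unfold hq
  positivity

lemma hq_smooth {v : V → V} (hv : SM v) (x : V) {ρ m : ℝ} (hρ : 0 < ρ) (hm : 0 < m) :
    ContDiff ℝ 1 (hq v x ρ m) := by
  have hw : ∀ i : Fin 3, ContDiff ℝ 1 (fun y : V => vort v y i) := fun i => (vort_df hv).smooth i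
  have hz : ∀ i : Fin 3, ContDiff ℝ 1 (fun y : V => y i - x i) := fun i => by fun_prop
  have hN : ContDiff ℝ 1 (fun y : V => md ρ (y - x)) := by
    unfold md
    refine ContDiff.sqrt ?_ (fun y => by have := dot_nn (y - x); positivity)
    simp only [dot3, Pi.sub_apply]
    fun_prop
  have hc : ContDiff ℝ 1 (fun y : V => crossProduct (y - x) (vort v y) ⬝ᵥ
      crossProduct (y - x) (vort v y)) := by
    simp only [dot3, cross_apply, Pi.sub_apply]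
    simp
    fun_prop
  have hd : ContDiff ℝ 1 (fun y : V => vort v y ⬝ᵥ vort v y + m ^ 2) := by
    simp only [dot3]
    fun_prop
  unfold hq
  exact (hc.div hd fun y => by have := dot_nn (vort v y); positivity).div (hN.pow 3)
    fun y => by have := md_pos hρ (y - x); positivity

/-- The pointwise inequality. -/
lemma hq_pt {v : V → V} {x y e : V} {ρ m ε : ℝ} (hρ : 0 < ρ) (hy : 0 < om v y)
    (hε0 : 0 ≤ ε) (hε : ε ≤ 1) (he : e ⬝ᵥ e = 1) (hd : len (xi v y - e) ≤ ε) :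
    hq v x ρ m y ≤ (e ⬝ᵥ xi v y) / md ρ (y - x)
      - (e ⬝ᵥ (y - x)) * ((y - x) ⬝ᵥ xi v y) / md ρ (y - x) ^ 3 + ε / ρ := by
  obtain ⟨z, hz⟩ : ∃ z, z = y - x := ⟨_, rfl⟩
  obtain ⟨N, hN⟩ : ∃ N, N = md ρ z := ⟨_, rfl⟩
  have hN0 : 0 < N := by rw [hN]; exact md_pos hρ z
  have hN2 : N ^ 2 = z ⬝ᵥ z + ρ ^ 2 := by rw [hN]; exact md_sq ρ z
  have hρN : ρ ≤ N := by
    have := dot_nn z
    nlinarith
  have h1 : hq v x ρ m y
      ≤ (crossProduct z (xi v y) ⬝ᵥ crossProduct z (xi v y)) / N ^ 3 := by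
    unfold hq
    rw [← hz, ← hN]
    refine div_le_div_of_nonneg_right ?_ (by positivity)
    have e1 : crossProduct z (xi v y) ⬝ᵥ crossProduct z (xi v y)
        = (crossProduct z (vort v y) ⬝ᵥ crossProduct z (vort v y)) / om v y ^ 2 := by
      unfold xi
      rw [map_smul, smul_dotProduct, dotProduct_smul, smul_eq_mul, smul_eq_mul]
      field_simp
    rw [e1]
    have e2 : vort v y ⬝ᵥ vort v y = om v y ^ 2 := (len_sq' _).symm
    rw [e2]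
    exact div_le_div_of_nonneg_left (dot_nn _) (by positivity) (by nlinarith [sq_nonneg m])
  rw [← hz, ← hN]
  refine h1.trans ?_
  have hge := dot_ge he (xi_unit hy) hd
  have hge0 : 0 ≤ e ⬝ᵥ xi v y := by nlinarith
  have hlag := Pool.Agent.H1CV.lagr z e (xi v y)
  have hcs : |crossProduct z (xi v y - e) ⬝ᵥ crossProduct z (xi v y)| ≤ ε * (z ⬝ᵥ z) := by
    refine (dot_le_len' _ _).trans ?_
    have h2 := len_cross_le z (xi v y - e)
    have h3 := len_cross_le z (xi v y)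
    rw [xi_len hy, mul_one] at h3
    have h4 := len_nonneg z
    calc len (crossProduct z (xi v y - e)) * len (crossProduct z (xi v y))
        ≤ (len z * ε) * len z := mul_le_mul (h2.trans (mul_le_mul_of_nonneg_left hd h4)) h3
          (len_nonneg _) (by positivity)
      _ = ε * len z ^ 2 := by ring
      _ = ε * (z ⬝ᵥ z) := by rw [len_sq']
  have hsplit : crossProduct z e ⬝ᵥ crossProduct z (xi v y)
      = crossProduct z (xi v y) ⬝ᵥ crossProduct z (xi v y)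
        - crossProduct z (xi v y - e) ⬝ᵥ crossProduct z (xi v y) := by
    rw [map_sub, sub_dotProduct]
    ring
  have h5 := (abs_le.1 hcs).2
  have h6 : (e ⬝ᵥ xi v y) / N - (e ⬝ᵥ z) * (z ⬝ᵥ xi v y) / N ^ 3
      = (ρ ^ 2 * (e ⬝ᵥ xi v y) + crossProduct z e ⬝ᵥ crossProduct z (xi v y)) / N ^ 3 := by
    rw [← hlag, dotProduct_comm z e]
    have e3 : ρ ^ 2 = N ^ 2 - z ⬝ᵥ z := by linarith
    rw [e3]
    field_simp
    ring
  rw [h6]
  have h7 : ε * (z ⬝ᵥ z) / N ^ 3 ≤ ε / ρ := by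
    rw [div_le_div_iff₀ (by positivity) hρ]
    have h8 : z ⬝ᵥ z ≤ N ^ 2 := by nlinarith [sq_nonneg ρ]
    have h9 : (z ⬝ᵥ z) * ρ ≤ N ^ 2 * N := mul_le_mul h8 hρN hρ.le (by positivity)
    calc ε * (z ⬝ᵥ z) * ρ = ε * ((z ⬝ᵥ z) * ρ) := by ring
      _ ≤ ε * (N ^ 2 * N) := mul_le_mul_of_nonneg_left h9 hε0
      _ = ε * N ^ 3 := by ring
  have h10 : (crossProduct z (xi v y) ⬝ᵥ crossProduct z (xi v y)) / N ^ 3
      ≤ (ρ ^ 2 * (e ⬝ᵥ xi v y) + crossProduct z e ⬝ᵥ crossProduct z (xi v y)) / N ^ 3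
        + ε * (z ⬝ᵥ z) / N ^ 3 := by
    rw [← add_div]
    refine div_le_div_of_nonneg_right ?_ (by positivity)
    have : 0 ≤ ρ ^ 2 * (e ⬝ᵥ xi v y) := by positivity
    linarith
  linarith

/-- The integral of the radial weight along the arcs. -/
lemma hq_arc {v : V → V} (hv : SM v) {D : Set V} {ε l ρ m ℓ : ℝ} {γ : ℝ → V} {x : V}
    (hT : Turn v D ε) (hε : ε ≤ 1) (hl : 0 < l) (hD : ∀ y ∈ D, 0 < om v y) (hγ : Cur v D γ l)
    (hρ : 0 < ρ) (hm : 0 < m) (hℓ : l ≤ ℓ) :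
    ∫ s in (0 : ℝ)..l, hq v x ρ m (γ s) ≤ 2 + ε * ℓ / ρ := by
  obtain ⟨e, he⟩ : ∃ e, e = xi v (γ 0) := ⟨_, rfl⟩
  have he1 : e ⬝ᵥ e = 1 := by
    rw [he]
    exact xi_unit (hD _ (hγ 0 ⟨le_rfl, hl.le⟩).1)
  have hε0 : 0 ≤ ε := (len_nonneg _).trans (turn_le hT hl hγ (s := l) ⟨hl.le, le_rfl⟩)
  have hcont := cur_cont hγ
  have hder : ∀ s ∈ Icc 0 l, HasDerivWithinAt
      (fun s => (e ⬝ᵥ (γ s - x)) / md ρ (γ s - x) + ε / ρ * s)
      ((e ⬝ᵥ xi v (γ s)) / md ρ (γ s - x)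
        - (e ⬝ᵥ (γ s - x)) * ((γ s - x) ⬝ᵥ xi v (γ s)) / md ρ (γ s - x) ^ 3 + ε / ρ)
      (Icc 0 l) s := by
    intro s hs
    have h1 := quo_deriv (hγ s hs).2 x e hρ
    have h2 := ((hasDerivWithinAt_id s (Icc 0 l)).const_mul (ε / ρ))
    rw [mul_one] at h2
    exact h1.add h2
  have h1 := intervalIntegral.integral_le_sub_of_hasDeriv_right_of_le (a := 0) (b := l)
    (φ := fun s => hq v x ρ m (γ s)) hl.le
    (fun s hs => (hder s hs).continuousWithinAt)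
    (fun s hs => ((hder s (Ioo_subset_Icc_self hs)).hasDerivAt
      (Icc_mem_nhds hs.1 hs.2)).hasDerivWithinAt)
    (((hq_smooth hv x hρ hm).continuous.comp_continuousOn hcont).integrableOn_compact isCompact_Icc)
    (fun s hs => hq_pt hρ (hD _ (hγ s (Ioo_subset_Icc_self hs)).1) hε0 hε he1 (by
      rw [he]
      exact turn_le hT hl hγ (Ioo_subset_Icc_self hs)))
  refine h1.trans ?_
  have hb : ∀ y : V, |(e ⬝ᵥ (y - x)) / md ρ (y - x)| ≤ 1 := by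
    intro y
    have h2 := dot_le_len' e (y - x)
    have h3 : len e = 1 := by rw [len, he1, Real.sqrt_one]
    rw [h3, one_mul] at h2
    rw [abs_div, abs_of_pos (md_pos hρ _), div_le_one (md_pos hρ _)]
    exact h2.trans (len_le_md _ _)
  have h2 := abs_le.1 (hb (γ l))
  have h3 := abs_le.1 (hb (γ 0))
  have h4 : ε / ρ * l ≤ ε * ℓ / ρ := by
    rw [div_mul_eq_mul_div]
    exact div_le_div_of_nonneg_right (mul_le_mul_of_nonneg_left hℓ hε0) hρ.le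
  simp only [mul_zero, add_zero]
  linarith

end Pool.Agent.H2TV
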