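import Pool.Agent.H2TV.Arc

/-!
Project TV: the distance of the end points of the arcs and the oscillation of the direction.
-/

set_option autoImplicit false

open MeasureTheory Set Metric Filter Topology
open H459R3.NS Pool.Agent.W268.NS Pool.Agent.Q67.VD

namespace Pool.Agent.H2TV

open Pool.Agent.Q151.CC
open Pool.Agent.H1CV (dot_le_len' len_sq' lagr2)

/-- The distance of the end points and the component of the direction. -/
lemma chord_dot {γ g : ℝ → V} {l c : ℝ} (hl : 0 < l)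
    (hγ : ∀ s ∈ Icc (0 : ℝ) l, HasDerivWithinAt γ (g s) (Icc 0 l) s) {e : V} (he : e ⬝ᵥ e = 1)
    (hc : ∀ s ∈ Icc (0 : ℝ) l, c ≤ e ⬝ᵥ g s) : c * l ≤ len (γ l - γ 0) := by
  have hder : ∀ s ∈ Icc 0 l, HasDerivWithinAt (fun s => e ⬝ᵥ γ s) (e ⬝ᵥ g s) (Icc 0 l) s :=
    fun s hs => dot_deriv (hγ s hs) _
  have h5 := (convex_Icc (0 : ℝ) l).mul_sub_le_image_sub_of_le_deriv (C := c)
    (f := fun s => e ⬝ᵥ γ s) (fun s hs => (hder s hs).continuousWithinAt)
    (fun s hs => by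
      rw [interior_Icc] at hs
      exact ((hder s (Ioo_subset_Icc_self hs)).hasDerivAt
        (Icc_mem_nhds hs.1 hs.2)).differentiableAt.differentiableWithinAt)
    (fun s hs => by
      rw [interior_Icc] at hs
      rw [((hder s (Ioo_subset_Icc_self hs)).hasDerivAt (Icc_mem_nhds hs.1 hs.2)).deriv]
      exact hc s (Ioo_subset_Icc_self hs))
    0 ⟨le_rfl, hl.le⟩ l ⟨hl.le, le_rfl⟩ hl.le
  have h6 := (le_abs_self _).trans (dot_le_len' e (γ l - γ 0))
  have h7 : len e = 1 := by rw [len, he, Real.sqrt_one]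
  have h8 : e ⬝ᵥ (γ l - γ 0) = e ⬝ᵥ γ l - e ⬝ᵥ γ 0 := dotProduct_sub _ _ _
  rw [h7, one_mul, h8] at h6
  linarith

/-- Unit vectors at the distance `δ`. -/
lemma dot_of_len {a b : V} {δ : ℝ} (ha : a ⬝ᵥ a = 1) (hb : b ⬝ᵥ b = 1) (h : len (b - a) ≤ δ) :
    1 - δ ≤ a ⬝ᵥ b := by
  have h1 := dot_ge ha hb (le_refl (len (b - a)))
  have h2 : len (b - a) ≤ 2 := by
    have h3 : len (b - a) ^ 2 ≤ 2 ^ 2 := by
      rw [len_sq']
      have h4 := dot_le_len' a b
      have h5 : len a = 1 := by rw [len, ha, Real.sqrt_one]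
      have h6 : len b = 1 := by rw [len, hb, Real.sqrt_one]
      rw [h5, h6, one_mul] at h4
      have h7 := (abs_le.1 h4).1
      have e : (b - a) ⬝ᵥ (b - a) = b ⬝ᵥ b + a ⬝ᵥ a - 2 * (a ⬝ᵥ b) := by
        simp only [dot3, Pi.sub_apply]
        ring
      rw [e, ha, hb]
      linarith
    exact (abs_le_of_sq_le_sq' h3 (by norm_num)).2
  have h3 := len_nonneg (b - a)
  nlinarith

/-- Unit vectors with a small cross product and a nonnegative inner product. -/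
lemma dot_of_cross {a b : V} {δ : ℝ} (ha : a ⬝ᵥ a = 1) (hb : b ⬝ᵥ b = 1)
    (h : len (crossProduct a b) ≤ δ) (hδ : δ ≤ 1) (h0 : 0 ≤ a ⬝ᵥ b) : 1 - δ ≤ a ⬝ᵥ b := by
  have h1 := lagr2 a b
  rw [ha, hb, ← len_sq'] at h1
  have h2 := pow_le_pow_left₀ (len_nonneg _) h 2
  have h3 := len_nonneg (crossProduct a b)
  by_contra hcon
  rw [not_le] at hcon
  have h4 : (a ⬝ᵥ b) ^ 2 < (1 - δ) ^ 2 := by
    exact pow_lt_pow_left₀ hcon h0 (by norm_num)
  nlinarith

end Pool.Agent.H2TV
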