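import Pool.Agent.H2TV.Crv
import Pool.Agent.H2CV.Cont

/-!
Project TV: the integrals over the arcs of functions of small content integral.
-/

set_option autoImplicit false

open MeasureTheory Set Metric Filter Topology
open scoped ContDiff ENNReal NNReal
open H459R3.NS Pool.Agent.W268.NS Pool.Agent.Q67.VD

namespace Pool.Agent.H2TV

open Pool.Agent.Q151.CC
open Pool.Agent.H1CV (dot_le_len' len_sq' lagr len_cross_le len_le_norm)
open Pool.Agent.H2CV (content choq meas_content)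

/-- The integral over a graph. -/
lemma arc_content {γ : ℝ → V} {l : ℝ} (hl : 0 < l) (hγc : ContinuousOn γ (Icc 0 l)) {e : V}
    (he : len e = 1) (hlow : ∀ s₁ s₂ : ℝ, 0 ≤ s₁ → s₁ ≤ s₂ → s₂ ≤ l →
      1 / 2 * (s₂ - s₁) ≤ e ⬝ᵥ (γ s₂ - γ s₁)) {D : Set V} (hD : MeasurableSet D)
    (hγD : ∀ s ∈ Icc (0 : ℝ) l, γ s ∈ D) {m : V → ℝ} (hm : Measurable m) (hm0 : ∀ y, 0 ≤ m y) :
    ∫⁻ s in Icc (0 : ℝ) l, ENNReal.ofReal (m (γ s)) ≤ 8 * choq D m := by
  obtain ⟨g, hg⟩ : ∃ g : ℝ → V, g = fun s => γ (max 0 (min s l)) := ⟨_, rfl⟩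
  have hgc : Continuous g := by
    rw [hg]
    refine hγc.comp_continuous (by fun_prop) fun s => ?_
    exact ⟨le_max_left _ _, max_le hl.le (min_le_right _ _)⟩
  have hgγ : ∀ s ∈ Icc (0 : ℝ) l, g s = γ s := by
    intro s hs
    rw [hg]
    show γ (max 0 (min s l)) = γ s
    rw [min_eq_left hs.2, max_eq_right hs.1]
  obtain ⟨ν, hν⟩ : ∃ ν : Measure V, ν = (volume.restrict (Icc (0 : ℝ) l)).map g := ⟨_, rfl⟩
  have h1 : ∫⁻ s in Icc (0 : ℝ) l, ENNReal.ofReal (m (γ s)) = ∫⁻ y, ENNReal.ofReal (m y) ∂ν := by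
    rw [hν, lintegral_map hm.ennreal_ofReal hgc.measurable]
    refine setLIntegral_congr_fun measurableSet_Icc fun s hs => ?_
    show ENNReal.ofReal (m (γ s)) = ENNReal.ofReal (m (g s))
    rw [hgγ s hs]
  have h2 : ∀ (x : V) (r : ℝ≥0), ν (closedBall x r) ≤ (8 : ℝ≥0) * r := by
    intro x r
    rw [hν, Measure.map_apply hgc.measurable isClosed_closedBall.measurableSet,
      Measure.restrict_apply (hgc.measurable isClosed_closedBall.measurableSet)]
    refine (Real.volume_le_diam _).trans ?_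
    have h3 : ∀ s₁ ∈ g ⁻¹' closedBall x r ∩ Icc (0 : ℝ) l,
        ∀ s₂ ∈ g ⁻¹' closedBall x r ∩ Icc (0 : ℝ) l, s₁ ≤ s₂ → s₂ - s₁ ≤ 8 * r := by
      intro s₁ h₁ s₂ h₂ h12
      have e1 := hlow s₁ s₂ h₁.2.1 h12 h₂.2.2
      have e2 := (le_abs_self _).trans (dot_le_len' e (γ s₂ - γ s₁))
      rw [he, one_mul] at e2
      have e3 := len_le_norm (γ s₂ - γ s₁)
      have e4 : ‖γ s₂ - x‖ ≤ r := by
        have := mem_closedBall.1 h₂.1
        rwa [hgγ s₂ h₂.2, dist_eq_norm] at this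
      have e5 : ‖γ s₁ - x‖ ≤ r := by
        have := mem_closedBall.1 h₁.1
        rwa [hgγ s₁ h₁.2, dist_eq_norm] at this
      have e6 : ‖γ s₂ - γ s₁‖ ≤ ‖γ s₂ - x‖ + ‖γ s₁ - x‖ := by
        have : γ s₂ - γ s₁ = (γ s₂ - x) - (γ s₁ - x) := by abel
        rw [this]
        exact norm_sub_le _ _
      linarith
    have h4 := ediam_le_of_forall_dist_le (C := 8 * (r : ℝ))
      (s := g ⁻¹' closedBall x r ∩ Icc (0 : ℝ) l) (fun s₁ h₁ s₂ h₂ => by
        rw [Real.dist_eq]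
        rcases le_total s₁ s₂ with h | h
        · rw [abs_sub_comm, abs_of_nonneg (sub_nonneg.2 h)]
          exact h3 s₁ h₁ s₂ h₂ h
        · rw [abs_of_nonneg (sub_nonneg.2 h)]
          exact h3 s₂ h₂ s₁ h₁ h)
    refine h4.trans (le_of_eq ?_)
    rw [ENNReal.ofReal_mul (by norm_num)]
    simp
  have h3 : ν Dᶜ = 0 := by
    rw [hν, Measure.map_apply hgc.measurable hD.compl,
      Measure.restrict_apply (hgc.measurable hD.compl)]
    have : g ⁻¹' Dᶜ ∩ Icc (0 : ℝ) l = ∅ := by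
      ext s
      simp only [mem_inter_iff, mem_preimage, mem_compl_iff, mem_empty_iff_false, iff_false,
        not_and]
      intro h h'
      exact absurd (hγD s h') (by rw [← hgγ s h']; exact h)
    rw [this, measure_empty]
  rw [h1, lintegral_eq_lintegral_meas_lt ν (Eventually.of_forall hm0) hm.aemeasurable]
  unfold choq
  have e8 : (8 : ℝ≥0∞) = ((8 : ℝ≥0) : ℝ≥0∞) := by norm_num
  rw [e8, ← lintegral_const_mul' _ _ ENNReal.coe_ne_top]
  refine lintegral_mono fun l => ?_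
  exact meas_content (by norm_num) h2 h3

/-- The distance of the end points, when the curvature is small up to a function of small content
integral. -/
theorem chord_content {w : V → V} {Ω : Set V} (hΩ : IsOpen Ω) (hw : ContDiffOn ℝ 1 w Ω)
    {γ : ℝ → V} {l : ℝ} (hl : 0 < l) (hγ : ∀ s ∈ Icc (0 : ℝ) l, γ s ∈ Ω ∧ 0 < len (w (γ s)) ∧
      HasDerivWithinAt γ ((len (w (γ s)))⁻¹ • w (γ s)) (Icc 0 l) s)
    {D : Set V} (hD : MeasurableSet D) (hγD : ∀ s ∈ Icc (0 : ℝ) l, γ s ∈ D) {m : V → ℝ}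
    (hm : Continuous m) (hm0 : ∀ y, 0 ≤ m y) {μ : ℝ} (hμ0 : 0 ≤ μ) (hμ : μ ≤ 1 / 64)
    (hc : choq D m ≤ ENNReal.ofReal μ)
    (hk : ∫ s in (0 : ℝ)..l, max (kp w (γ s) - m (γ s)) 0 ≤ 1 / 8) :
    (1 - (∫ s in (0 : ℝ)..l, max (kp w (γ s) - m (γ s)) 0) - 8 * μ) * l ≤ len (γ l - γ 0) := by
  have hil : l ∈ Icc (0 : ℝ) l := ⟨hl.le, le_rfl⟩
  have hγc : ContinuousOn γ (Icc 0 l) := fun s hs => (hγ s hs).2.2.continuousWithinAt
  have hkc := kp_arc_cont hΩ hw hγ
  have hmc : ContinuousOn (fun s => m (γ s)) (Icc 0 l) := hm.comp_continuousOn hγc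
  have hfc : ContinuousOn (fun s => max (kp w (γ s) - m (γ s)) 0) (Icc 0 l) :=
    (hkc.sub hmc).sup continuousOn_const
  have hii : ∀ {f : ℝ → ℝ}, ContinuousOn f (Icc 0 l) → ∀ s ∈ Icc (0 : ℝ) l,
      IntervalIntegrable f volume 0 s := by
    intro f hf s hs
    apply ContinuousOn.intervalIntegrable
    rw [uIcc_of_le hs.1]
    exact hf.mono (Icc_subset_Icc_right hs.2)
  have key : ∀ s ∈ Icc (0 : ℝ) l, 0 < s → ∫ r in (0 : ℝ)..s, kp w (γ r) ≤ 1 / 2 →
      ∫ r in (0 : ℝ)..s, kp w (γ r) ≤ (∫ r in (0 : ℝ)..l, max (kp w (γ r) - m (γ r)) 0) + 8 * μ := by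
    intro s hs hs0 h1
    have hsub : Icc (0 : ℝ) s ⊆ Icc 0 l := Icc_subset_Icc_right hs.2
    obtain ⟨e, he, hlow⟩ := graph_low hΩ hw hs0 (γ := γ) fun r hr =>
      ⟨(hγ r (hsub hr)).1, (hγ r (hsub hr)).2.1, (hγ r (hsub hr)).2.2.mono hsub⟩
    have h2 := arc_content hs0 (hγc.mono hsub) he (fun s₁ s₂ a b c =>
      le_trans (mul_le_mul_of_nonneg_right (by linarith) (by linarith)) (hlow s₁ s₂ a b c)) hD
      (fun r hr => hγD r (hsub hr)) hm.measurable hm0
    have h3 : ∫⁻ r in Icc (0 : ℝ) s, ENNReal.ofReal (m (γ r)) ≤ ENNReal.ofReal (8 * μ) := by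
      refine h2.trans ((mul_le_mul_right hc 8).trans (le_of_eq ?_))
      rw [ENNReal.ofReal_mul (by norm_num)]
      simp
    have h4 : ∫ r in (0 : ℝ)..s, m (γ r) ≤ 8 * μ := by
      rw [intervalIntegral.integral_of_le hs.1, ← integral_Icc_eq_integral_Ioc,
        integral_eq_lintegral_of_nonneg_ae (Eventually.of_forall fun r => hm0 _)
          ((hmc.mono hsub).aestronglyMeasurable measurableSet_Icc)]
      exact ENNReal.toReal_le_of_le_ofReal (by positivity) h3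
    have h5 : ∫ r in (0 : ℝ)..s, kp w (γ r)
        ≤ ∫ r in (0 : ℝ)..s, (max (kp w (γ r) - m (γ r)) 0 + m (γ r)) := by
      refine intervalIntegral.integral_mono_on hs.1 (hii hkc s hs)
        ((hii hfc s hs).add (hii hmc s hs)) fun r _ => ?_
      have := le_max_left (kp w (γ r) - m (γ r)) 0
      linarith
    rw [intervalIntegral.integral_add (hii hfc s hs) (hii hmc s hs)] at h5
    have h6 : ∫ r in (0 : ℝ)..s, max (kp w (γ r) - m (γ r)) 0
        ≤ ∫ r in (0 : ℝ)..l, max (kp w (γ r) - m (γ r)) 0 := by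
      apply intervalIntegral.integral_mono_interval le_rfl hs.1 hs.2
      · exact ae_of_all _ fun r => le_max_right _ _
      · exact hii hfc l hil
    linarith
  have hK : ∫ r in (0 : ℝ)..l, kp w (γ r) ≤ 1 / 2 := by
    by_contra hcon
    rw [not_le] at hcon
    have hcont : ContinuousOn (fun s => ∫ r in (0 : ℝ)..s, kp w (γ r)) (Icc 0 l) := by
      have h1 := intervalIntegral.continuousOn_primitive_interval
        (a := 0) (b := l) (f := fun r => kp w (γ r)) (μ := volume) (by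
          rw [uIcc_of_le hl.le]
          exact hkc.integrableOn_compact isCompact_Icc)
      rwa [uIcc_of_le hl.le] at h1
    obtain ⟨s, hs, hs1⟩ : (1 / 2 : ℝ) ∈ (fun s => ∫ r in (0 : ℝ)..s, kp w (γ r)) '' Icc 0 l :=
      intermediate_value_Icc hl.le hcont ⟨by
        show ∫ r in (0 : ℝ)..0, kp w (γ r) ≤ 1 / 2
        rw [intervalIntegral.integral_same]; norm_num, hcon.le⟩
    have hs2 : ∫ r in (0 : ℝ)..s, kp w (γ r) = 1 / 2 := hs1
    have hs0 : 0 < s := by
      rcases hs.1.eq_or_lt with h | h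
      · rw [← h, intervalIntegral.integral_same] at hs2
        norm_num at hs2
      · exact h
    have := key s hs hs0 hs2.le
    linarith
  have h1 := key l hil hl hK
  refine le_trans (mul_le_mul_of_nonneg_right ?_ hl.le) (chord_curv hΩ hw hl hγ)
  linarith

end Pool.Agent.H2TV
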