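import Pool.Agent.H2TV.Arc

/-!
Project TV: the distance of the end points of an arc and the integral of the curvature.
-/

set_option autoImplicit false

open MeasureTheory Set Metric Filter Topology
open scoped ContDiff
open H459R3.NS Pool.Agent.W268.NS Pool.Agent.Q67.VD

namespace Pool.Agent.H2TV

open Pool.Agent.Q151.CC
open Pool.Agent.H1CV (dot_le_len' len_sq' lagr len_cross_le)

/-- The curvature of the lines of the field `w`. -/
noncomputable def kp (w : V → V) (y : V) : ℝ :=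
  len (crossProduct (w y) (fderiv ℝ w y (w y))) / len (w y) ^ 3

lemma kp_nonneg (w : V → V) (y : V) : 0 ≤ kp w y :=
  div_nonneg (len_nonneg _) (pow_nonneg (len_nonneg _) 3)

lemma len_contOn {f : V → V} {S : Set V} (hf : ContinuousOn f S) :
    ContinuousOn (fun y => len (f y)) S := by
  have hi : ∀ i : Fin 3, ContinuousOn (fun y => f y i) S := fun i =>
    (continuous_apply i).comp_continuousOn hf
  unfold len
  refine ContinuousOn.sqrt ?_
  simp only [dot3]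
  fun_prop

lemma kp_contOn {w : V → V} {Ω : Set V} (hΩ : IsOpen Ω) (hw : ContDiffOn ℝ 1 w Ω) {S : Set V}
    (hS : ∀ y ∈ S, y ∈ Ω ∧ w y ≠ 0) : ContinuousOn (kp w) S := by
  have hsub : S ⊆ Ω := fun y hy => (hS y hy).1
  have h1 : ContinuousOn w S := hw.continuousOn.mono hsub
  have h2 : ContinuousOn (fun y => fderiv ℝ w y (w y)) S :=
    ((hw.continuousOn_fderiv_of_isOpen hΩ le_rfl).mono hsub).clm_apply h1
  have h3 : ContinuousOn (fun y => crossProduct (w y) (fderiv ℝ w y (w y))) S := by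
    have hwi : ∀ i : Fin 3, ContinuousOn (fun y => w y i) S := fun i =>
      (continuous_apply i).comp_continuousOn h1
    have hvi : ∀ i : Fin 3, ContinuousOn (fun y => fderiv ℝ w y (w y) i) S := fun i =>
      (continuous_apply i).comp_continuousOn h2
    refine continuousOn_pi.2 fun i => ?_
    simp only [cross_apply]
    fin_cases i <;> simp <;> fun_prop
  refine (len_contOn h3).div ((len_contOn h1).pow 3) fun y hy => ?_
  exact (pow_pos (Pool.Agent.H1CV.len_pos_of_ne (hS y hy).2) 3).ne'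

/-- The derivative of a component of the direction. -/
lemma dir_deriv {w : V → V} {γ : ℝ → V} {S : Set ℝ} {s : ℝ} {L : V →L[ℝ] V} (e : V)
    (hw : HasFDerivAt w L (γ s)) (h0 : 0 < len (w (γ s)))
    (hγ : HasDerivWithinAt γ ((len (w (γ s)))⁻¹ • w (γ s)) S s) :
    HasDerivWithinAt (fun s => (e ⬝ᵥ w (γ s)) / len (w (γ s)))
      ((crossProduct (w (γ s)) e ⬝ᵥ crossProduct (w (γ s)) (L (w (γ s)))) / len (w (γ s)) ^ 4)
      S s := by
  have h1 : HasDerivWithinAt (fun s => w (γ s)) ((len (w (γ s)))⁻¹ • L (w (γ s))) S s := by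
    have := hw.comp_hasDerivWithinAt s hγ
    rwa [map_smul] at this
  have h2 := dotself_deriv h1 0
  simp only [sub_zero] at h2
  have h3 : HasDerivWithinAt (fun s => len (w (γ s)))
      (2 * (w (γ s) ⬝ᵥ ((len (w (γ s)))⁻¹ • L (w (γ s)))) / (2 * len (w (γ s)))) S s := by
    have hne : w (γ s) ⬝ᵥ w (γ s) ≠ 0 := by
      rw [← len_sq']
      positivity
    exact h2.sqrt hne
  have h4 := (dot_deriv h1 e).div h3 h0.ne'
  obtain ⟨a, ha⟩ : ∃ a, a = w (γ s) := ⟨_, rfl⟩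
  obtain ⟨b, hb⟩ : ∃ b, b = L (w (γ s)) := ⟨_, rfl⟩
  rw [← hb, ← ha] at h4 ⊢
  rw [← ha] at h0
  have e2 : (crossProduct a e ⬝ᵥ crossProduct a b) / len a ^ 4
      = ((e ⬝ᵥ ((len a)⁻¹ • b)) * len a
        - (e ⬝ᵥ a) * (2 * (a ⬝ᵥ ((len a)⁻¹ • b)) / (2 * len a))) / len a ^ 2 := by
    rw [← lagr a e b, ← len_sq', dotProduct_smul, dotProduct_smul, smul_eq_mul, smul_eq_mul,
      dotProduct_comm a e]
    field_simp
  rw [e2]
  exact h4

lemma kp_arc_cont {w : V → V} {Ω : Set V} (hΩ : IsOpen Ω) (hw : ContDiffOn ℝ 1 w Ω) {γ : ℝ → V}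
    {l : ℝ} (hγ : ∀ s ∈ Icc (0 : ℝ) l, γ s ∈ Ω ∧ 0 < len (w (γ s)) ∧
      HasDerivWithinAt γ ((len (w (γ s)))⁻¹ • w (γ s)) (Icc 0 l) s) :
    ContinuousOn (fun s => kp w (γ s)) (Icc 0 l) := by
  have hγc : ContinuousOn γ (Icc 0 l) := fun s hs => (hγ s hs).2.2.continuousWithinAt
  exact (kp_contOn hΩ hw (S := γ '' Icc 0 l) (by
    rintro y ⟨s, hs, rfl⟩
    refine ⟨(hγ s hs).1, fun h0 => ?_⟩
    have := (hγ s hs).2.1
    rw [h0] at this
    simp [len] at this)).comp hγc (mapsTo_image γ _)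

/-- The arcs of small total curvature are graphs. -/
theorem graph_low {w : V → V} {Ω : Set V} (hΩ : IsOpen Ω) (hw : ContDiffOn ℝ 1 w Ω) {γ : ℝ → V}
    {l : ℝ} (hl : 0 < l) (hγ : ∀ s ∈ Icc (0 : ℝ) l, γ s ∈ Ω ∧ 0 < len (w (γ s)) ∧
      HasDerivWithinAt γ ((len (w (γ s)))⁻¹ • w (γ s)) (Icc 0 l) s) :
    ∃ e : V, len e = 1 ∧ ∀ s₁ s₂ : ℝ, 0 ≤ s₁ → s₁ ≤ s₂ → s₂ ≤ l →
      (1 - ∫ s in (0 : ℝ)..l, kp w (γ s)) * (s₂ - s₁) ≤ e ⬝ᵥ (γ s₂ - γ s₁) := by
  have hi0 : (0 : ℝ) ∈ Icc (0 : ℝ) l := ⟨le_rfl, hl.le⟩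
  have hil : l ∈ Icc (0 : ℝ) l := ⟨hl.le, le_rfl⟩
  have hγc : ContinuousOn γ (Icc 0 l) := fun s hs => (hγ s hs).2.2.continuousWithinAt
  obtain ⟨e, he⟩ : ∃ e, e = (len (w (γ 0)))⁻¹ • w (γ 0) := ⟨_, rfl⟩
  have h00 := (hγ 0 hi0).2.1
  have he1 : e ⬝ᵥ e = 1 := by
    rw [he, smul_dotProduct, dotProduct_smul, ← len_sq', smul_eq_mul, smul_eq_mul]
    field_simp
  have hle : len e = 1 := by rw [len, he1, Real.sqrt_one]
  have hkc : ContinuousOn (fun s => kp w (γ s)) (Icc 0 l) := kp_arc_cont hΩ hw hγ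
  have hki : ∀ s ∈ Icc (0 : ℝ) l, IntervalIntegrable (fun s => kp w (γ s)) volume 0 s := by
    intro s hs
    apply ContinuousOn.intervalIntegrable
    rw [uIcc_of_le hs.1]
    exact hkc.mono (Icc_subset_Icc_right hs.2)
  -- the component in the initial direction
  have hder : ∀ s ∈ Icc 0 l, HasDerivWithinAt (fun s => (e ⬝ᵥ w (γ s)) / len (w (γ s)))
      ((crossProduct (w (γ s)) e ⬝ᵥ crossProduct (w (γ s)) (fderiv ℝ w (γ s) (w (γ s))))
        / len (w (γ s)) ^ 4) (Icc 0 l) s := fun s hs =>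
    dir_deriv e ((hw.differentiableOn one_ne_zero).differentiableAt
      (hΩ.mem_nhds (hγ s hs).1)).hasFDerivAt (hγ s hs).2.1 (hγ s hs).2.2
  have hbd : ∀ s ∈ Icc 0 l, -kp w (γ s)
      ≤ (crossProduct (w (γ s)) e ⬝ᵥ crossProduct (w (γ s)) (fderiv ℝ w (γ s) (w (γ s))))
        / len (w (γ s)) ^ 4 := by
    intro s hs
    have h0 := (hγ s hs).2.1
    have h1 := dot_le_len' (crossProduct (w (γ s)) e)
      (crossProduct (w (γ s)) (fderiv ℝ w (γ s) (w (γ s))))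
    have h2 := len_cross_le (w (γ s)) e
    rw [hle, mul_one] at h2
    have h3 := (abs_le.1 (h1.trans (mul_le_mul_of_nonneg_right h2 (len_nonneg _)))).1
    unfold kp
    rw [le_div_iff₀ (by positivity)]
    calc _ = -(len (w (γ s)) * len (crossProduct (w (γ s)) (fderiv ℝ w (γ s) (w (γ s))))) := by
          field_simp
      _ ≤ _ := h3
  have hlow : ∀ s ∈ Icc (0 : ℝ) l, 1 - ∫ s in (0 : ℝ)..l, kp w (γ s)
      ≤ e ⬝ᵥ ((len (w (γ s)))⁻¹ • w (γ s)) := by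
    intro s hs
    have hsub : Icc 0 s ⊆ Icc 0 l := Icc_subset_Icc_right hs.2
    have h1 := intervalIntegral.integral_le_sub_of_hasDeriv_right_of_le (a := 0) (b := s)
      (φ := fun s => -kp w (γ s)) hs.1
      (fun r hr => ((hder r (hsub hr)).continuousWithinAt).mono hsub)
      (fun r hr => ((hder r (hsub (Ioo_subset_Icc_self hr))).hasDerivAt
        (Icc_mem_nhds hr.1 (hr.2.trans_le hs.2))).hasDerivWithinAt)
      ((hkc.mono hsub).neg.integrableOn_compact isCompact_Icc)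
      (fun r hr => hbd r (hsub (Ioo_subset_Icc_self hr)))
    rw [intervalIntegral.integral_neg] at h1
    have h2 : (e ⬝ᵥ w (γ 0)) / len (w (γ 0)) = 1 := by
      rw [he, smul_dotProduct, ← len_sq', smul_eq_mul]
      field_simp
    have h3 : ∫ r in (0 : ℝ)..s, kp w (γ r) ≤ ∫ r in (0 : ℝ)..l, kp w (γ r) := by
      apply intervalIntegral.integral_mono_interval le_rfl hs.1 hs.2
      · exact ae_of_all _ fun r => kp_nonneg _ _
      · exact hki l hil
    have h4 : e ⬝ᵥ ((len (w (γ s)))⁻¹ • w (γ s)) = (e ⬝ᵥ w (γ s)) / len (w (γ s)) := by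
      rw [dotProduct_smul, smul_eq_mul]
      field_simp
    rw [h4]
    rw [h2] at h1
    linarith
  have hder2 : ∀ s ∈ Icc 0 l, HasDerivWithinAt (fun s => e ⬝ᵥ γ s)
      (e ⬝ᵥ ((len (w (γ s)))⁻¹ • w (γ s))) (Icc 0 l) s := fun s hs =>
    dot_deriv (hγ s hs).2.2 _
  refine ⟨e, hle, fun s₁ s₂ h0 h12 h2 => ?_⟩
  have h5 := (convex_Icc (0 : ℝ) l).mul_sub_le_image_sub_of_le_deriv
    (C := 1 - ∫ s in (0 : ℝ)..l, kp w (γ s))
    (f := fun s => e ⬝ᵥ γ s) (fun s hs => (hder2 s hs).continuousWithinAt)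
    (fun s hs => by
      rw [interior_Icc] at hs
      exact ((hder2 s (Ioo_subset_Icc_self hs)).hasDerivAt
        (Icc_mem_nhds hs.1 hs.2)).differentiableAt.differentiableWithinAt)
    (fun s hs => by
      rw [interior_Icc] at hs
      rw [((hder2 s (Ioo_subset_Icc_self hs)).hasDerivAt (Icc_mem_nhds hs.1 hs.2)).deriv]
      exact hlow s (Ioo_subset_Icc_self hs))
    s₁ ⟨h0, h12.trans h2⟩ s₂ ⟨h0.trans h12, h2⟩ h12
  have h8 : e ⬝ᵥ (γ s₂ - γ s₁) = e ⬝ᵥ γ s₂ - e ⬝ᵥ γ s₁ := dotProduct_sub _ _ _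
  rw [h8]
  exact h5

/-- The distance of the end points and the integral of the curvature. -/
theorem chord_curv {w : V → V} {Ω : Set V} (hΩ : IsOpen Ω) (hw : ContDiffOn ℝ 1 w Ω) {γ : ℝ → V}
    {l : ℝ} (hl : 0 < l) (hγ : ∀ s ∈ Icc (0 : ℝ) l, γ s ∈ Ω ∧ 0 < len (w (γ s)) ∧
      HasDerivWithinAt γ ((len (w (γ s)))⁻¹ • w (γ s)) (Icc 0 l) s) :
    (1 - ∫ s in (0 : ℝ)..l, kp w (γ s)) * l ≤ len (γ l - γ 0) := by
  obtain ⟨e, he, h⟩ := graph_low hΩ hw hl hγ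
  have h1 := h 0 l le_rfl hl.le le_rfl
  have h6 := (le_abs_self _).trans (dot_le_len' e (γ l - γ 0))
  rw [he, one_mul] at h6
  rw [sub_zero] at h1
  linarith

end Pool.Agent.H2TV
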