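import Pool.Agent.H2TV.KA
import Pool.Agent.H2TV.Pin
import Pool.Agent.H1TV.LipK
import Pool.Agent.H1TV.LkB

/-!
Project TV: the Morrey bound and the pinching lemma for vortex lines which are nearly straight up to
the integral of a function `k` of small flux.
-/

set_option autoImplicit false

open MeasureTheory Set Metric Filter Topology
open scoped ContDiff
open H459R3.NS Pool.Agent.W268.NS Pool.Agent.Q67.VD

namespace Pool.Agent.H2TV

open Pool.Agent.Q85.CC Pool.Agent.Q85.CL Pool.Agent.Q85.VL Pool.Agent.Q151.CC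
open Pool.Agent.H1CV (dot_le_len' len_sq' len_le_norm norm_le_len md md_pos md_sq len_le_md
  len_pos_of_ne len_cross_le len_cont Ann Ann_meas Ann_mem rad_intOn chi_cs)
open Pool.Agent.H2VL (chi chi_smooth chi_nonneg chi_le_one chi_zero chi_one chi_fd chi_fd_zero
  ds_le_two stp_of_ge stp_nonneg stp_le_one stp_smooth)
open Pool.Agent.H1TV (xi Dm Turn Lk StmFlx StmFlxK StrK StrA strK_lip lk_eq)

/-- The flux inequality for one constant. -/
def FlxK (C : ℝ) : Prop := ∀ (v : V → V) (x : V) (R m ℓ H A L L' D : ℝ) (h χ k : V → ℝ), SM v →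
  0 < R → 0 < m → 0 < ℓ → 0 < H → 0 ≤ A → (∀ y z, |h y - h z| ≤ L * ‖y - z‖) → (∀ y, 0 ≤ h y) →
  (∀ y z, |k y - k z| ≤ L' * ‖y - z‖) → (∀ y, 0 ≤ k y) →
  ContDiff ℝ 1 χ → (∀ y, 0 ≤ χ y ∧ χ y ≤ 1) → (∀ y, χ y ≠ 0 → ‖y - x‖ ≤ R / 2) →
  (∀ y j, |pd j χ y| ≤ D) →
  (∀ (γ : ℝ → V) (l : ℝ), 0 < l → Cur v (Dm v x R m) γ l →
    (∫ s in (0 : ℝ)..l, h (γ s)) + H / ℓ * l ≤ 2 * H + A * ∫ s in (0 : ℝ)..l, k (γ s)) →
    ∫ y, χ y * (H1TV.kap m v y * (h y * om v y))
      ≤ C * (H * ((∫ y in {y | pd 0 χ y ≠ 0 ∨ pd 1 χ y ≠ 0 ∨ pd 2 χ y ≠ 0}, D * om v y)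
        + Lk v m x R) + A * ∫ y in Dm v x R m, k y * om v y)

/-- The constant of the flux inequality. -/
lemma flxK_of (h : StmFlxK) : ∃ C, 0 < C ∧ FlxK C := by
  obtain ⟨C, hC, h⟩ := h
  refine ⟨C + 1, by linarith, ?_⟩
  intro v x R m ℓ H A L L' D h₀ χ k hv hR hm hℓ hH hA hhL hh0 hkL hk0 hχ hχ1 hχR hχD harc
  have h1 := h v x R m ℓ H A (max L L') D h₀ k χ (closedBall x R) hv hR hm hℓ hH hA
    (fun y z => (hhL y z).trans (mul_le_mul_of_nonneg_right (le_max_left _ _) (norm_nonneg _)))
    (fun y z => (hkL y z).trans (mul_le_mul_of_nonneg_right (le_max_right _ _) (norm_nonneg _)))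
    hh0 hk0 hχ hχ1 hχR hχD isClosed_closedBall.measurableSet subset_rfl
    (fun y hy => by
      rw [mem_closedBall, dist_eq_norm]
      exact (hχR y hy).trans (by linarith))
    (fun γ l hl hγ => by
      have := harc γ l hl hγ
      linarith)
  rw [← lk_eq hv] at h1
  have h2 : 0 ≤ ∫ y in Dm v x R m, k y * om v y :=
    integral_nonneg fun y => mul_nonneg (hk0 y) (len_nonneg _)
  obtain ⟨I, hI⟩ : ∃ I, I = ∫ y in {y | pd 0 χ y ≠ 0 ∨ pd 1 χ y ≠ 0 ∨ pd 2 χ y ≠ 0}, D * om v y :=
    ⟨_, rfl⟩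
  have hD0 : 0 ≤ D := (abs_nonneg _).trans (hχD x 0)
  have hI0 : 0 ≤ I := by
    rw [hI]
    exact integral_nonneg fun y => mul_nonneg hD0 (len_nonneg _)
  have hL0 : 0 ≤ Lk v m x R :=
    Finset.sum_nonneg fun i _ => Finset.sum_nonneg fun j _ => integral_nonneg fun y => by positivity
  rw [← hI] at h1 ⊢
  obtain ⟨J, hJ⟩ : ∃ J, J = ∫ y in Dm v x R m, k y * om v y := ⟨_, rfl⟩
  rw [← hJ] at h1 h2 ⊢
  have h3 : 0 ≤ H * (I + Lk v m x R) := mul_nonneg hH.le (add_nonneg hI0 hL0)
  have h4 : 0 ≤ C * (A * J) := by positivity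
  calc _ ≤ A * J + C * H * (I + Lk v m x R) := h1
    _ ≤ (C + 1) * (H * (I + Lk v m x R) + A * J) := by nlinarith

lemma Dm_sub (v : V → V) (x : V) (R m : ℝ) : Dm v x R m ⊆ closedBall x R := by
  intro y hy
  rw [mem_closedBall, dist_eq_norm]
  exact hy.1

lemma kD_int {v : V → V} (hv : SM v) {k : V → ℝ} (hk : Continuous k) (x : V) (R m : ℝ) :
    IntegrableOn (fun y => k y * om v y) (Dm v x R m) :=
  ((hk.mul (om_cont hv)).continuousOn.integrableOn_compact
    (isCompact_closedBall x R)).mono_set (Dm_sub v x R m)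

/-- In `StrK` one can use a Lipschitz function. -/
lemma strK_arc {v : V → V} (hv : SM v) {x : V} {R m ε : ℝ} (hε : 0 < ε)
    (h : StrK v (Dm v x R m) ε) : ∃ (L : ℝ) (k : V → ℝ), (∀ y z, |k y - k z| ≤ L * ‖y - z‖) ∧
      Continuous k ∧ (∀ y, 0 ≤ k y) ∧ ∫ y in Dm v x R m, k y * om v y ≤ 2 * ε ∧
      ArcK v (Dm v x R m) (2 * ε) k := by
  obtain ⟨L, k, hL, h1, h2, h3, h4⟩ := strK_lip hv hε h
  have hc : Continuous k := by
    have : LipschitzWith ⟨L, hL⟩ k := LipschitzWith.of_dist_le_mul fun y z => by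
      rw [Real.dist_eq, dist_eq_norm]
      exact h1 y z
    exact this.continuous
  refine ⟨L, k, h1, hc, h2, h3, fun γ l hl hγ => ?_⟩
  refine le_trans (mul_le_mul_of_nonneg_right ?_ hl.le) (h4 γ l hl hγ)
  linarith

/-- The flux inequality with the small ball. -/
lemma ball_fluxK {C : ℝ} (hC : 0 < C) (hF : FlxK C)
    {v : V → V} {x : V} {R m e s a ρ L' : ℝ} {k : V → ℝ} (hv : SM v) (hR : 0 < R) (hm : 0 < m)
    (hT : ArcK v (Dm v x R m) e k) (he : e ≤ 1 / 4) (hkL : ∀ y z, |k y - k z| ≤ L' * ‖y - z‖)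
    (hk : Continuous k) (hk0 : ∀ y, 0 ≤ k y)
    (hkD : ∫ y in Dm v x R m, k y * om v y ≤ e) (ha : 0 < a) (has : a ≤ s)
    (hsR : s + a ≤ R / 2) (hρ : 0 < ρ) (hρs : ρ ≤ s - a) :
    ∫ y in closedBall x ρ, om v y ≤ 24 * m * ρ ^ 3
      + ρ * (C * (16 * (2 / a * (∫ y in Shell x s a, om v y) + Lk v m x R) + 128 * e)) := by
  have hlc := om_cont hv
  have h1 := hF v x R m (8 * R) 16 128 (1 / ρ ^ 2) L' (2 / a) (hb x ρ) (chi x s a) k hv hR hm
    (by positivity) (by norm_num) (by norm_num) (hb_lip x hρ) (hb_nonneg x hρ) hkL hk0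
    (chi_smooth x s a)
    (fun y => ⟨chi_nonneg _ _ _ _, chi_le_one _ _ _ _⟩)
    (fun y hy => by
      by_contra hc
      exact hy (chi_zero ha (by linarith [not_le.1 hc])))
    (fun y j => pd_chi ha has y j)
    (fun γ l hl hγ => arcs_b hT he hk hk0 hR hl hγ hρ)
  have h2 := grad_set hv (x := x) (s := s) ha
  have h3 : ∫ y in closedBall x ρ, (om v y - 3 * m) / ρ
      ≤ ∫ y, chi x s a y * (H1TV.kap m v y * (hb x ρ y * om v y)) := by
    rw [← integral_indicator measurableSet_closedBall]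
    apply integral_mono
    · exact (integrable_indicator_iff measurableSet_closedBall).2
        (((hlc.sub continuous_const).div_const _).continuousOn.integrableOn_compact
          (isCompact_closedBall _ _))
    · exact ((chi_smooth x s a).continuous.mul ((kap_cont hv m).mul
        ((hb_cont x ρ).mul hlc))).integrable_of_hasCompactSupport (chi_cs ha).mul_right
    · intro y
      show (closedBall x ρ).indicator (fun y => (om v y - 3 * m) / ρ) y
        ≤ chi x s a y * (H1TV.kap m v y * (hb x ρ y * om v y))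
      by_cases hy : y ∈ closedBall x ρ
      · rw [indicator_of_mem hy]
        have hy' : ‖y - x‖ ≤ ρ := by
          rw [mem_closedBall, dist_eq_norm] at hy
          exact hy
        rw [chi_one ha (hy'.trans hρs), one_mul, hb_one hρ hy']
        have h4 := kap_ge hm v y
        rw [div_le_iff₀ hρ]
        calc om v y - 3 * m ≤ H1TV.kap m v y * om v y := h4
          _ = _ := by field_simp
      · rw [indicator_of_notMem hy]
        exact mul_nonneg (chi_nonneg _ _ _ _) (mul_nonneg (kap_nn _ _ _)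
          (mul_nonneg (hb_nonneg x hρ y) (om_nn v y)))
  rw [integral_div, div_le_iff₀ hρ, integral_sub
    (hlc.continuousOn.integrableOn_compact (isCompact_closedBall _ _))
    (continuous_const.continuousOn.integrableOn_compact (isCompact_closedBall _ _)),
    setIntegral_const, vol_cb x hρ.le, smul_eq_mul] at h3
  have h4 : C * (16 * ((∫ y in {y | pd 0 (chi x s a) y ≠ 0 ∨ pd 1 (chi x s a) y ≠ 0 ∨
      pd 2 (chi x s a) y ≠ 0}, 2 / a * om v y) + Lk v m x R)
        + 128 * ∫ y in Dm v x R m, k y * om v y)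
      ≤ C * (16 * (2 / a * (∫ y in Shell x s a, om v y) + Lk v m x R) + 128 * e) :=
    mul_le_mul_of_nonneg_left (by linarith) hC.le
  have h5 := mul_le_mul_of_nonneg_right (h1.trans h4) hρ.le
  linarith

/-- The Morrey bound at one time. -/
def StmMorK : Prop := ∃ C ε₀ : ℝ, 1 ≤ C ∧ 0 < ε₀ ∧ ∀ (v : V → V) (x : V) (r R m : ℝ), SM v →
  0 < m → 0 < r → r ≤ R / 8 → StrK v (Dm v x R m) ε₀ → ∫ y in closedBall x r, om v y
    ≤ C * ((∫ y in closedBall x R, om v y) / R + Lk v m x R + m * R ^ 2 + 1) * r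

theorem morK {C : ℝ} (hC : 0 < C) (hF : FlxK C) : StmMorK := by
  refine ⟨512 * C + 24, 1 / 8, by linarith, by norm_num, ?_⟩
  intro v x r R m hv hm hr hrR hT
  obtain ⟨L', k, hkL, hk, hk0, hkD', hA⟩ := strK_arc hv (by norm_num) hT
  have hR : 0 < R := by linarith
  have h1 := ball_fluxK hC hF hv hR hm hA (by norm_num) hkL hk hk0 hkD' (s := 3 * R / 8) (a := R / 8) (ρ := r)
    (by positivity) (by linarith) (by linarith) hr (by linarith)
  have hI : 0 ≤ ∫ y in closedBall x R, om v y := integral_nonneg fun y => om_nn v y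
  have h2 : ∫ y in Shell x (3 * R / 8) (R / 8), om v y ≤ ∫ y in closedBall x R, om v y := by
    apply setIntegral_mono_set
      ((om_cont hv).continuousOn.integrableOn_compact (isCompact_closedBall _ _))
      (Eventually.of_forall fun y => om_nn v y)
    apply LE.le.eventuallyLE
    intro y hy
    have h3 : |‖y - x‖ - 3 * R / 8| ≤ R / 8 := hy
    show y ∈ closedBall x R
    rw [mem_closedBall, dist_eq_norm]
    linarith [(abs_le.1 h3).2]
  have hL := Lk_nn v m x R
  have h3 : 2 / (R / 8) * (∫ y in Shell x (3 * R / 8) (R / 8), om v y)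
      ≤ 16 * ((∫ y in closedBall x R, om v y) / R) := by
    have e : 2 / (R / 8) = 16 / R := by
      field_simp
      norm_num
    rw [e]
    calc 16 / R * (∫ y in Shell x (3 * R / 8) (R / 8), om v y)
        ≤ 16 / R * ∫ y in closedBall x R, om v y := mul_le_mul_of_nonneg_left h2 (by positivity)
      _ = _ := by ring
  have h4 : m * r ^ 3 ≤ m * R ^ 2 * r := by
    have : r ^ 2 ≤ R ^ 2 := pow_le_pow_left₀ hr.le (by linarith) 2
    calc m * r ^ 3 = m * r * r ^ 2 := by ring
      _ ≤ m * r * R ^ 2 := mul_le_mul_of_nonneg_left this (by positivity)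
      _ = _ := by ring
  obtain ⟨I, hId⟩ : ∃ I, I = (∫ y in closedBall x R, om v y) / R := ⟨_, rfl⟩
  have hI0 : 0 ≤ I := by rw [hId]; positivity
  rw [← hId] at h3 ⊢
  have h5 : r * (C * (16 * (2 / (R / 8) * (∫ y in Shell x (3 * R / 8) (R / 8), om v y)
      + Lk v m x R) + 128 * (2 * (1 / 8)))) ≤ r * (C * (16 * (16 * I + Lk v m x R) + 32)) := by
    apply mul_le_mul_of_nonneg_left _ hr.le
    apply mul_le_mul_of_nonneg_left _ hC.le
    linarith
  have h6 : 0 ≤ m * R ^ 2 * r := by positivity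
  have h7 : 0 ≤ C * I * r := by positivity
  have h8 : 0 ≤ C * Lk v m x R * r := by positivity
  have h9 : 0 ≤ C * (m * R ^ 2) * r := by positivity
  have h10 : 0 ≤ I * r := by positivity
  have h11 : 0 ≤ Lk v m x R * r := by positivity
  have h12 : 0 ≤ C * r := by positivity
  nlinarith

/-- The flux inequality with the radial weight. -/
lemma rad_fluxK {C : ℝ} (hC : 0 < C) (hF : FlxK C)
    {v : V → V} {x : V} {R m e ρ L' : ℝ} {k : V → ℝ} (hv : SM v) (hR : 0 < R) (hm : 0 < m)
    (hT : ArcK v (Dm v x R m) e k) (he0 : 0 ≤ e) (he : e ≤ 1 / 4)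
    (hkL : ∀ y z, |k y - k z| ≤ L' * ‖y - z‖) (hk : Continuous k) (hk0 : ∀ y, 0 ≤ k y) (hkD : ∫ y in Dm v x R m, k y * om v y ≤ e) (hρ : 0 < ρ)
    (heρ : 2 * e * (8 * R) / ρ ≤ 1) (heρ2 : (40 + 16 * R / ρ) * e ≤ 1) :
    ∫ y, chi x (3 * R / 8) (R / 8) y * (H1TV.kap m v y * (hr v x R ρ m y * om v y))
      ≤ C * (5 * (16 / R * (∫ y in closedBall x R, om v y) + Lk v m x R) + 1) := by
  have hlc := om_cont hv
  have hs : ContDiff ℝ 1 (hr v x R ρ m) := (chi_smooth _ _ _).mul (hq_smooth hv x hρ hm)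
  have hcs : HasCompactSupport (hr v x R ρ m) :=
    (chi_cs (x := x) (s := 3 * R / 4) (a := R / 4) (by positivity)).mul_right
  obtain ⟨L, hL⟩ := hs.lipschitzWith_of_hasCompactSupport hcs one_ne_zero
  have h1 := hF v x R m (8 * R) 5 (40 + 16 * R / ρ) L L' (2 / (R / 8)) (hr v x R ρ m)
    (chi x (3 * R / 8) (R / 8)) k hv hR
    hm (by positivity) (by norm_num) (by positivity)
    (fun y z => by
      have := hL.dist_le_mul y z
      rwa [Real.dist_eq, dist_eq_norm] at this)
    (fun y => mul_nonneg (chi_nonneg _ _ _ _) (hq_nonneg v x hρ m y)) hkL hk0 (chi_smooth _ _ _)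
    (fun y => ⟨chi_nonneg _ _ _ _, chi_le_one _ _ _ _⟩)
    (fun y hy => by
      by_contra hc
      exact hy (chi_zero (by positivity) (by linarith [not_le.1 hc])))
    (fun y j => pd_chi (by positivity) (by linarith) y j)
    (fun γ l hl hγ => by
      have h2 := arcs_q hv hT he0 he hk hk0 hR hm hl hγ (ρ := ρ) hρ heρ
      have hcont := cur_cont hγ
      have h3 : ∫ s in (0 : ℝ)..l, hr v x R ρ m (γ s) ≤ ∫ s in (0 : ℝ)..l, hq v x ρ m (γ s) := by
        apply intervalIntegral.integral_mono_on hl.le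
        · apply ContinuousOn.intervalIntegrable
          rw [uIcc_of_le hl.le]
          exact hs.continuous.comp_continuousOn hcont
        · apply ContinuousOn.intervalIntegrable
          rw [uIcc_of_le hl.le]
          exact (hq_smooth hv x hρ hm).continuous.comp_continuousOn hcont
        · intro s _
          exact mul_le_of_le_one_left (hq_nonneg v x hρ m _) (chi_le_one _ _ _ _)
      linarith)
  refine h1.trans (mul_le_mul_of_nonneg_left ?_ hC.le)
  have h2 := grad_set hv (x := x) (s := 3 * R / 8) (a := R / 8) (by positivity)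
  have h3 : ∫ y in Shell x (3 * R / 8) (R / 8), om v y ≤ ∫ y in closedBall x R, om v y := by
    apply setIntegral_mono_set
      ((om_cont hv).continuousOn.integrableOn_compact (isCompact_closedBall _ _))
      (Eventually.of_forall fun y => om_nn v y)
    apply LE.le.eventuallyLE
    intro y hy
    have h3 : |‖y - x‖ - 3 * R / 8| ≤ R / 8 := hy
    show y ∈ closedBall x R
    rw [mem_closedBall, dist_eq_norm]
    linarith [(abs_le.1 h3).2]
  have e1 : 2 / (R / 8) = 16 / R := by
    field_simp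
    norm_num
  rw [e1] at h2 ⊢
  have h4 : 16 / R * ∫ y in Shell x (3 * R / 8) (R / 8), om v y
      ≤ 16 / R * ∫ y in closedBall x R, om v y := mul_le_mul_of_nonneg_left h3 (by positivity)
  have h5 : (40 + 16 * R / ρ) * ∫ y in Dm v x R m, k y * om v y ≤ 1 :=
    (mul_le_mul_of_nonneg_left hkD (by positivity)).trans heρ2
  linarith

/-- The pinching lemma. -/
def StmPinK : Prop := ∃ c : ℝ, 0 < c ∧ c ≤ 1 ∧ ∀ K η τ : ℝ, 0 ≤ K → 0 < η → η ≤ 1 → 0 < τ →
  τ ≤ 1 → ∃ (N : ℕ) (ε : ℝ), 0 < ε ∧ ∀ (v : V → V) (x : V) (R ρ m : ℝ), SM v → 0 < R → 0 < m →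
    StrK v (Dm v x R m) ε → Lk v m x R ≤ c * η → m * R ^ 2 ≤ c * η * τ →
    ∫ y in closedBall x R, om v y ≤ K * R →
    0 < ρ → ρ ≤ (1 / 256) ^ N * R → η * ρ ≤ ∫ y in closedBall x ρ, om v y →
      ∃ k < N,
        ∫ y in closedBall x ((1 / 256) ^ k * (R / 4) / 16) \
            ball x ((1 / 256) ^ k * (R / 4) / 128),
          len (crossProduct (y - x) (vort v y)) ^ 2 / om v y
            ≤ τ * ((1 / 256) ^ k * (R / 4)) ^ 3 ∧
        ∀ s w : ℝ, (1 / 256) ^ k * (R / 4) / 64 ≤ s → s ≤ (1 / 256) ^ k * (R / 4) / 32 →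
          0 < w → w ≤ s / 4 → c * η * w ≤ ∫ y in Shell x s w, om v y

set_option maxHeartbeats 1600000 in
theorem pinK {C : ℝ} (hC : 0 < C) (hF : FlxK C) : StmPinK := by
  obtain ⟨c, hcd⟩ : ∃ c, c = 1 / (64 * (C + 1)) := ⟨_, rfl⟩
  have hc : 0 < c := by rw [hcd]; positivity
  have hcC : C * c ≤ 1 / 64 := by
    rw [hcd, mul_one_div, div_le_div_iff₀ (by positivity) (by norm_num)]
    linarith
  have hc64 : c ≤ 1 / 64 := by
    rw [hcd]
    exact one_div_le_one_div_of_le (by norm_num) (by linarith)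
  refine ⟨c, hc, by linarith, ?_⟩
  intro K η τ hK hη hη1 hτ hτ1
  obtain ⟨N, hN⟩ := exists_nat_gt (C * (5 * (16 * K + 1) + 1) / (400 * τ))
  rw [div_lt_iff₀ (by positivity)] at hN
  obtain ⟨q, hqd⟩ : ∃ q : ℝ, q = (1 / 256) ^ N := ⟨_, rfl⟩
  have hq0 : 0 < q := by rw [hqd]; positivity
  have hq1 : q ≤ 1 := by rw [hqd]; exact pow_le_one₀ (by norm_num) (by norm_num)
  obtain ⟨ε, hεd⟩ : ∃ ε, ε = min (q / 128) (η / (8192 * (C + 1))) := ⟨_, rfl⟩
  have hε : 0 < ε := by rw [hεd]; exact lt_min (by positivity) (by positivity)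
  have hεq : ε ≤ q / 128 := by rw [hεd]; exact min_le_left _ _
  have hεη : ε ≤ η / (8192 * (C + 1)) := by rw [hεd]; exact min_le_right _ _
  have hεη' : C * 128 * ε ≤ η / 64 := by
    rw [le_div_iff₀ (by positivity)] at hεη
    nlinarith
  have hε1 : ε ≤ 1 / 4 := by linarith
  refine ⟨N + 1, ε / 2, by positivity, ?_⟩
  intro v x R ρ m hv hR hm hT hLk hmR hom hρ hρR hconc
  obtain ⟨L', k₀, hkL, hk, hk0, hkD', hA⟩ := strK_arc hv (by positivity) hT
  rw [show 2 * (ε / 2) = ε by ring] at hkD' hA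
  have hlc := om_cont hv
  obtain ⟨rr, hrr⟩ : ∃ rr : ℕ → ℝ, rr = fun k => (1 / 256 : ℝ) ^ k * (R / 4) := ⟨_, rfl⟩
  have hrr0 : ∀ k, 0 < rr k := fun k => by
    rw [hrr]
    positivity
  have hrrR : ∀ k, rr k ≤ R / 4 := fun k => by
    rw [hrr]
    exact mul_le_of_le_one_left (by positivity) (pow_le_one₀ (by norm_num) (by norm_num))
  have hrrs : ∀ k, rr (k + 1) = rr k / 256 := fun k => by
    rw [hrr]
    simp only [pow_succ]
    ring
  have hanti : ∀ k l, k ≤ l → rr l ≤ rr k := by
    intro k l hkl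
    rw [hrr]
    exact mul_le_mul_of_nonneg_right (pow_le_pow_of_le_one (by norm_num) (by norm_num) hkl)
      (by positivity)
  have hρk : ∀ k < N, ρ ≤ rr k / 16384 := by
    intro k hk
    have h1 : rr (k + 2) ≥ (1 / 256) ^ (N + 1) * (R / 4) := by
      rw [hrr]
      exact mul_le_mul_of_nonneg_right (pow_le_pow_of_le_one (by norm_num) (by norm_num)
        (by omega)) (by positivity)
    have h2 : rr (k + 2) = rr k / 65536 := by
      rw [show k + 2 = (k + 1) + 1 from rfl, hrrs, hrrs]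
      ring
    rw [h2] at h1
    linarith
  have hρR' : ρ ≤ R / 256 := by
    refine hρR.trans ?_
    rw [pow_succ]
    have : (1 / 256 : ℝ) ^ N ≤ 1 := pow_le_one₀ (by norm_num) (by norm_num)
    have h2 : (1 / 256 : ℝ) ^ N * R ≤ 1 * R := mul_le_mul_of_nonneg_right this hR.le
    linarith
  have hητ : c * η * τ ≤ c * η := mul_le_of_le_one_right (by positivity) hτ1
  have hcη : c * η ≤ η / 64 := by
    have := mul_le_mul_of_nonneg_right hc64 hη.le
    linarith
  have hcτ : c * η * τ ≤ τ / 64 := by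
    have h1 : c * η ≤ 1 / 64 := by linarith
    have h2 := mul_le_mul_of_nonneg_right h1 hτ.le
    linarith
  -- the shells
  have hshell : ∀ k < N, ∀ s a : ℝ, rr k / 64 ≤ s → s ≤ rr k / 32 → 0 < a → a ≤ s / 4 →
      c * η * a ≤ ∫ y in Shell x s a, om v y := by
    intro k hkN s a hs1 hs2 ha has
    have hrk := hrr0 k
    have hrkR := hrrR k
    have h1 := ball_fluxK hC hF hv hR hm hA hε1 hkL hk hk0 hkD' (ρ := ρ) (s := s) (a := a) ha
      (by linarith) (by linarith) hρ (by linarith [hρk k hkN])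
    have h2 : 24 * m * ρ ^ 3 ≤ ρ * (η / 64) := by
      have h3 : m * ρ ^ 2 ≤ m * R ^ 2 / 65536 := by
        have := pow_le_pow_left₀ hρ.le hρR' 2
        have h4 := mul_le_mul_of_nonneg_left this hm.le
        linarith [h4, show m * (R / 256) ^ 2 = m * R ^ 2 / 65536 by ring]
      have h4 : 24 * (m * ρ ^ 2) ≤ η / 64 := by linarith
      calc 24 * m * ρ ^ 3 = ρ * (24 * (m * ρ ^ 2)) := by ring
        _ ≤ _ := mul_le_mul_of_nonneg_left h4 hρ.le
    have h3 : η ≤ η / 64 + C * (16 * (2 / a * (∫ y in Shell x s a, om v y) + Lk v m x R)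
        + 128 * ε) := by
      have h5 : ρ * η ≤ ρ * (η / 64
          + C * (16 * (2 / a * (∫ y in Shell x s a, om v y) + Lk v m x R) + 128 * ε)) := by
        rw [mul_add ρ]
        linarith
      exact le_of_mul_le_mul_left h5 hρ
    have h4 : C * 16 * Lk v m x R ≤ η / 4 := by
      calc C * 16 * Lk v m x R ≤ C * 16 * (c * η) := mul_le_mul_of_nonneg_left hLk (by positivity)
        _ = 16 * (C * c) * η := by ring
        _ ≤ 16 * (1 / 64) * η := by
            apply mul_le_mul_of_nonneg_right _ hη.le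
            linarith
        _ = _ := by ring
    obtain ⟨I, hI⟩ : ∃ I, I = ∫ y in Shell x s a, om v y := ⟨_, rfl⟩
    rw [← hI] at h3 ⊢
    have h5 : η / 2 ≤ C * 32 * I / a := by
      have e : C * (16 * (2 / a * I + Lk v m x R) + 128 * ε)
          = C * 32 * I / a + C * 16 * Lk v m x R + C * 128 * ε := by
        field_simp
        ring
      rw [e] at h3
      linarith
    rw [le_div_iff₀ ha] at h5
    have hI0 : 0 ≤ I := by rw [hI]; exact integral_nonneg fun y => om_nn v y
    have h6 : η * a ≤ 64 * (C + 1) * I := by nlinarith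
    calc c * η * a = c * (η * a) := by ring
      _ ≤ c * (64 * (C + 1) * I) := mul_le_mul_of_nonneg_left h6 hc.le
      _ = (c * (64 * (C + 1))) * I := by ring
      _ = I := by
          have : c * (64 * (C + 1)) = 1 := by
            rw [hcd]
            field_simp
          rw [this, one_mul]
  -- the radial part
  have hρ₀ : 0 < rr N := hrr0 N
  have hrrN : rr N = q * (R / 4) := by rw [hrr, hqd]
  have htot := rad_fluxK hC hF hv hR hm hA hε.le hε1 hkL hk hk0 hkD' hρ₀ (by
    rw [hrrN, div_le_one (by positivity)]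
    nlinarith) (by
    rw [hrrN]
    have e1 : 16 * R / (q * (R / 4)) = 64 / q := by
      field_simp
      norm_num
    rw [e1, add_mul, div_mul_eq_mul_div]
    have e2 : 64 * ε / q ≤ 1 / 2 := by
      rw [div_le_iff₀ hq0]
      linarith
    have e3 : 40 * ε ≤ 1 / 2 := by linarith
    linarith)
  have htot2 : ∫ y, chi x (3 * R / 8) (R / 8) y * (H1TV.kap m v y * (hr v x R (rr N) m y * om v y))
      ≤ C * (5 * (16 * K + 1) + 1) := by
    refine htot.trans (mul_le_mul_of_nonneg_left ?_ hC.le)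
    have h5 : 16 / R * ∫ y in closedBall x R, om v y ≤ 16 * K := by
      rw [div_mul_eq_mul_div, div_le_iff₀ hR]
      linarith
    linarith
  by_contra hcon
  push Not at hcon
  -- all the annuli are bad
  have hbad : ∀ k < N, τ * rr k ^ 3 < ∫ y in Ann x (rr k),
      len (crossProduct (y - x) (vort v y)) ^ 2 / om v y := by
    intro k hk
    by_contra hc
    rw [not_lt] at hc
    obtain ⟨s, a, h1, h2, h3, h4, h5⟩ := hcon k (by omega) (by
      rw [hrr] at hc
      exact hc)
    have h6 := hshell k hk s a (by rw [hrr]; exact h1) (by rw [hrr]; exact h2) h3 h4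
    exact absurd h6 (not_le.2 h5)
  have hsub : ∀ k, Ann x (rr k) ⊆ closedBall x (R / 4) := by
    intro k y hy
    rw [mem_closedBall, dist_eq_norm]
    have := (Ann_mem hy).2
    have := hrrR k
    linarith
  have hdisj : Set.Pairwise (↑(Finset.range N)) (Function.onFun Disjoint fun k => Ann x (rr k)) := by
    have key : ∀ k l, k < l → Disjoint (Ann x (rr k)) (Ann x (rr l)) := by
      intro k l hkl
      rw [Set.disjoint_left]
      intro y h1 h2
      have h3 := (Ann_mem h1).1
      have h4 := (Ann_mem h2).2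
      have h5 := hanti (k + 1) l hkl
      rw [hrrs] at h5
      have := hrr0 k
      linarith
    intro k _ l _ hkl
    rcases lt_or_gt_of_ne hkl with h | h
    · exact key k l h
    · exact (key l k h).symm
  obtain ⟨g, hg⟩ : ∃ g : V → ℝ, g = fun y => H1TV.kap m v y * (hq v x (rr N) m y * om v y) :=
    ⟨_, rfl⟩
  have hgc : Continuous g := by
    rw [hg]
    exact (kap_cont hv m).mul ((hq_smooth hv x hρ₀ hm).continuous.mul hlc)
  have hg0 : ∀ y, 0 ≤ g y := fun y => by
    rw [hg]
    exact mul_nonneg (kap_nn _ _ _) (mul_nonneg (hq_nonneg v x hρ₀ m y) (om_nn v y))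
  have hdi : IntegrableOn g (closedBall x (R / 4)) :=
    hgc.continuousOn.integrableOn_compact (isCompact_closedBall _ _)
  have hsum : ∑ k ∈ Finset.range N, ∫ y in Ann x (rr k), g y
      ≤ ∫ y, chi x (3 * R / 8) (R / 8) y
        * (H1TV.kap m v y * (hr v x R (rr N) m y * om v y)) := by
    rw [← integral_biUnion_finset (Finset.range N) (fun k _ => Ann_meas x (rr k)) hdisj
      (fun k _ => hdi.mono_set (hsub k))]
    have hm' : MeasurableSet (⋃ k ∈ Finset.range N, Ann x (rr k)) :=
      Finset.measurableSet_biUnion _ fun k _ => Ann_meas x (rr k)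
    have hs : (⋃ k ∈ Finset.range N, Ann x (rr k)) ⊆ closedBall x (R / 4) :=
      iUnion₂_subset fun k _ => hsub k
    rw [← integral_indicator hm']
    apply integral_mono
    · exact (integrable_indicator_iff hm').2 (hdi.mono_set hs)
    · exact ((chi_smooth _ _ _).continuous.mul ((kap_cont hv m).mul
        (((chi_smooth _ _ _).continuous.mul (hq_smooth hv x hρ₀ hm).continuous).mul
          hlc))).integrable_of_hasCompactSupport (chi_cs (by positivity)).mul_right
    · intro y
      show (⋃ k ∈ Finset.range N, Ann x (rr k)).indicator g y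
        ≤ chi x (3 * R / 8) (R / 8) y * (H1TV.kap m v y * (hr v x R (rr N) m y * om v y))
      by_cases hy : y ∈ ⋃ k ∈ Finset.range N, Ann x (rr k)
      · rw [indicator_of_mem hy]
        have h1 := hs hy
        rw [mem_closedBall, dist_eq_norm] at h1
        unfold hr
        rw [chi_one (by positivity) (by linarith), one_mul,
          chi_one (by positivity) (by linarith), one_mul, hg]
      · rw [indicator_of_notMem hy]
        exact mul_nonneg (chi_nonneg _ _ _ _) (mul_nonneg (kap_nn _ _ _)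
          (mul_nonneg (mul_nonneg (chi_nonneg _ _ _ _) (hq_nonneg v x hρ₀ m y)) (om_nn v y)))
  have hlow : ∀ k ∈ Finset.range N, 400 * τ ≤ ∫ y in Ann x (rr k), g y := by
    intro k hk
    rw [Finset.mem_range] at hk
    have hrk := hrr0 k
    have hNk : rr N ≤ rr k / 64 := by
      have h1 := hanti (k + 1) N hk
      rw [hrrs] at h1
      linarith
    have hcb : IntegrableOn (fun _ : V => 18 * m / rr k) (Ann x (rr k)) :=
      (continuous_const.continuousOn.integrableOn_compact
        (isCompact_closedBall x (rr k / 16))).mono_set sdiff_subset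
    have h1 : ∫ y in Ann x (rr k), 512 / rr k ^ 3 *
        (len (crossProduct (y - x) (vort v y)) ^ 2 / om v y)
        ≤ ∫ y in Ann x (rr k), (10 / 9 * g y + 18 * m / rr k) := by
      apply setIntegral_mono_on
      · exact ((rad_intOn (vort_df hv).cont x (R / 4)).mono_set (hsub k)).const_mul _
      · exact ((hdi.mono_set (hsub k)).const_mul _).add hcb
      · exact Ann_meas x _
      · intro y hy
        rw [hg]
        exact rad_pt hρ₀ hrk hm hNk (Ann_mem hy).2
    rw [integral_const_mul, integral_add ((hdi.mono_set (hsub k)).const_mul _) hcb,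
      integral_const_mul, setIntegral_const, smul_eq_mul] at h1
    have h2 := (hbad k hk).le
    have h3 : 512 * τ ≤ 512 / rr k ^ 3 * ∫ y in Ann x (rr k),
        len (crossProduct (y - x) (vort v y)) ^ 2 / om v y := by
      calc 512 * τ = 512 / rr k ^ 3 * (τ * rr k ^ 3) := by field_simp
        _ ≤ _ := mul_le_mul_of_nonneg_left h2 (by positivity)
    have h4 : volume.real (Ann x (rr k)) ≤ 8 * (rr k / 16) ^ 3 := by
      rw [← vol_cb x (by positivity)]
      exact measureReal_mono sdiff_subset measure_closedBall_lt_top.ne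
    have h5 : volume.real (Ann x (rr k)) * (18 * m / rr k) ≤ τ := by
      calc volume.real (Ann x (rr k)) * (18 * m / rr k)
          ≤ 8 * (rr k / 16) ^ 3 * (18 * m / rr k) :=
            mul_le_mul_of_nonneg_right h4 (by positivity)
        _ = 9 / 256 * (m * rr k ^ 2) := by
            field_simp
            norm_num
        _ ≤ 9 / 256 * (m * R ^ 2) := by
            apply mul_le_mul_of_nonneg_left _ (by norm_num)
            apply mul_le_mul_of_nonneg_left _ hm.le
            exact pow_le_pow_left₀ hrk.le (by linarith [hrrR k]) 2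
        _ ≤ τ := by linarith
    linarith
  have hfin := Finset.sum_le_sum hlow
  rw [Finset.sum_const, Finset.card_range, nsmul_eq_mul] at hfin
  linarith

end Pool.Agent.H2TV
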