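import Pool.Agent.H2TV.FinM
import Pool.Agent.H2TV.KP

/-!
Project TV: at the singular points the vortex lines are not nearly straight up to a function of small
flux (with the local theorem as a hypothesis).
-/

set_option autoImplicit false

open MeasureTheory Set Metric Filter Topology
open scoped ContDiff ENNReal
open H459R3.NS Pool.Agent.W268.NS Pool.Agent.Q67.VD

namespace Pool.Agent.H2TV

open Pool.Agent.Q85.CC Pool.Agent.Q85.CL Pool.Agent.Q85.VL
open Pool.Agent.H1TV (xi Dm StrK StrA)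

/-- TV-LOC for `StrK`. The local theorem (viscosity one). -/
def StmTvK : Prop := ∀ (T E : ℝ) (O : Set V) (u : ℝ → V → V) (p : ℝ → V → ℝ), 0 < T →
  LSl T E O u p → ∀ a ∈ O, (∀ ε : ℝ, 0 < ε → ∃ m T₀ R : ℝ, 0 < m ∧ T₀ < T ∧ 0 < R ∧
    ∀ t ∈ Ioo T₀ T, 0 < t → StrK (u t) (Dm (u t) a R m) ε) →
    ∃ B δ : ℝ, 0 < δ ∧ ∀ t ∈ Ioo (T - δ) T, 0 < t → ∀ x ∈ closedBall a δ, ‖u t x‖ ≤ B

/-- There is an `ε > 0` such that near `a` and near the time `T` the arcs of the vortex lines at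
which the vorticity is larger than any given number are not nearly straight up to a function of
flux at most `ε`. -/
def BendsK (T : ℝ) (Ω : Set V) (u : ℝ → V → V) (a : V) : Prop :=
  ∃ ε : ℝ, 0 < ε ∧ ∀ M T₀ R : ℝ, 0 ≤ T₀ → T₀ < T → 0 < R → closedBall a R ⊆ Ω →
    ∃ t ∈ Ioo T₀ T, ∀ k : V → ℝ, Continuous k → (∀ y, 0 ≤ k y) →
      ∫ y in Dm (u t) a R M, k y * om (u t) y ≤ ε →
      ∃ (γ : ℝ → V) (l : ℝ), 0 < l ∧ Cur (u t) (Dm (u t) a R M) γ l ∧
        len (γ l - γ 0) < (1 - ε - ∫ s in (0 : ℝ)..l, k (γ s)) * l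

lemma cur_scale {v w : V → V} {D D' : Set V} {c : ℝ} (hc : 0 < c) (hD : D ⊆ D')
    (hz : ∀ y ∈ D, vort w y = c • vort v y) {γ : ℝ → V} {l : ℝ} (h : Cur w D γ l) :
    Cur v D' γ l := by
  intro s hs
  refine ⟨hD (h s hs).1, ?_⟩
  have h3 := (h s hs).2
  rwa [hz _ (h s hs).1, unit_scale hc] at h3

lemma cb_ae (a : V) (R : ℝ) (hR : 0 < R) : (closedBall a R : Set V) =ᵐ[volume] ball a R := by
  refine (ae_eq_set.2 ⟨?_, ?_⟩)
  · refine measure_mono_null ?_ (Measure.addHaar_sphere volume a R)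
    intro y hy
    rw [mem_sphere]
    have e1 := mem_closedBall.1 hy.1
    have e2 : ¬ dist y a < R := fun hc => hy.2 (mem_ball.2 hc)
    linarith
  · rw [sdiff_eq_empty.2 ball_subset_closedBall]
    exact measure_empty

/-- The local theorem in open sets, general viscosity. -/
theorem bendsKD (hTv : StmTvK) (hDom : StmDom) {ν T E : ℝ} {Ω : Set V} {u : ℝ → V → V}
    {p : ℝ → V → ℝ} (hν : 0 < ν) (h : DSl ν T E Ω u p) {a : V} (ha : a ∈ Ω) (hs : Sing T u a) :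
    BendsK T Ω u a := by
  have hT : 0 < T := by
    obtain ⟨t, ht, -⟩ := hs 0 1 one_pos
    exact ht.1.trans ht.2
  have hνi : 0 < ν⁻¹ := inv_pos.2 hν
  by_contra hcon
  unfold BendsK at hcon
  push Not at hcon
  obtain ⟨R₁, hR₁, hsub₁⟩ := nhds_basis_closedBall.mem_iff.1 (h.openO.mem_nhds ha)
  obtain ⟨E', v, q, hL, hv⟩ := hDom ν T E Ω u p hν hT h a R₁ hR₁ hsub₁
  have hnb : ¬ ∃ B δ : ℝ, 0 < δ ∧ ∀ t ∈ Ioo 0 T, T - δ < t → ∀ x, ‖x - a‖ ≤ δ → ‖u t x‖ ≤ B := by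
    rintro ⟨B, δ, hδ, h⟩
    obtain ⟨t, ht, htδ, x, hx, hB⟩ := hs B δ hδ
    exact absurd (h t ht htδ x hx) (not_le.2 hB)
  refine hnb (back hν hR₁ hT hv (hTv (ν * T) E' (ball a R₁) v q (mul_pos hν hT) hL a
    (mem_ball_self hR₁) ?_))
  intro ε hε
  obtain ⟨M, T₀, R, hT0, hT₀, hR, hRΩ, hle⟩ := hcon (min ε (ν * ε)) (lt_min hε (mul_pos hν hε))
  refine ⟨max (ν⁻¹ * M) 1, ν * T₀, min R (R₁ / 2), lt_max_of_lt_right one_pos,
    mul_lt_mul_of_pos_left hT₀ hν, lt_min hR (by positivity), fun t' ht' ht'0 => ?_⟩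
  obtain ⟨t, htd⟩ : ∃ t, t = t' / ν := ⟨_, rfl⟩
  have htν : ν * t = t' := by rw [htd]; field_simp
  have ht0 : 0 < t := by rw [htd]; positivity
  have ht : t ∈ Ioo T₀ T := by
    refine ⟨?_, ?_⟩
    · exact lt_of_mul_lt_mul_left (by rw [htν]; exact ht'.1) hν.le
    · exact lt_of_mul_lt_mul_left (by rw [htν]; exact ht'.2) hν.le
  have hI : t ∈ Ioo 0 T := ⟨ht0, ht.2⟩
  have hev : ∀ y : V, ‖y - a‖ ≤ min R (R₁ / 2) → ∀ᶠ z in 𝓝 y, v t' z = ν⁻¹ • u t z := by
    intro y hy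
    refine ball_ev (a := a) (R := R₁) (fun z hz => ?_) ?_
    · rw [← hv t hI z hz, htν]
    · rw [Metric.mem_ball, dist_eq_norm]
      exact hy.trans_lt ((min_le_right _ _).trans_lt (by linarith))
  have hsub : Dm (v t') a (min R (R₁ / 2)) (max (ν⁻¹ * M) 1) ⊆ Dm (u t) a R M := by
    intro y hy
    refine ⟨hy.1.trans (min_le_left _ _), ?_⟩
    have e1 : ν⁻¹ * M < om (v t') y := (le_max_left _ _).trans_lt hy.2
    rw [om_evD hνi.le (hev y hy.1)] at e1
    exact lt_of_mul_lt_mul_left e1 hνi.le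
  have hsv : SM (v t') := slice_u hL.toLEq (by rw [← htν]; exact ⟨by positivity,
    mul_lt_mul_of_pos_left ht.2 hν⟩)
  obtain ⟨k, hk, hk0, hki, hA⟩ := hle t ht
  have hDm := H1TV.Dm_meas hsv a (min R (R₁ / 2)) (max (ν⁻¹ * M) 1)
  have hom : ∀ y ∈ Dm (v t') a (min R (R₁ / 2)) (max (ν⁻¹ * M) 1),
      k y * om (v t') y = ν⁻¹ * (k y * om (u t) y) := by
    intro y hy
    rw [om_evD hνi.le (hev y hy.1)]
    ring
  refine ⟨k, hk, hk0, kD_int hsv hk _ _ _, ?_, fun γ l hl hγ => ?_⟩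
  · -- integrability
    obtain ⟨E'', w, q', hLw, hw⟩ := hDom ν T E Ω u p hν hT h a R hR hRΩ
    have hsw : SM (w t') := slice_u hLw.toLEq (by rw [← htν]; exact ⟨by positivity,
      mul_lt_mul_of_pos_left ht.2 hν⟩)
    have hevw : ∀ y ∈ ball a R, k y * om (u t) y = ν * (k y * om (w t') y) := by
      intro y hy
      have e1 : om (w t') y = ν⁻¹ * om (u t) y := by
        refine om_evD hνi.le (ball_ev (a := a) (R := R) (fun z hz => ?_) hy)
        rw [← hw t hI z hz, htν]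
      rw [e1]
      field_simp
    have hint : IntegrableOn (fun y => k y * om (u t) y) (closedBall a R) := by
      have e1 : IntegrableOn (fun y => ν * (k y * om (w t') y)) (ball a R) :=
        (((hk.mul (om_cont hsw)).continuousOn.integrableOn_compact
          (isCompact_closedBall a R)).mono_set ball_subset_closedBall).const_mul ν
      have e2 : IntegrableOn (fun y => k y * om (u t) y) (ball a R) :=
        (integrableOn_congr_fun hevw measurableSet_ball).2 e1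
      exact e2.congr_set_ae (cb_ae a R hR)
    have hDsub : Dm (u t) a R M ⊆ closedBall a R := Dm_sub _ _ _ _
    calc ∫ y in Dm (v t') a (min R (R₁ / 2)) (max (ν⁻¹ * M) 1), k y * om (v t') y
        = ∫ y in Dm (v t') a (min R (R₁ / 2)) (max (ν⁻¹ * M) 1), ν⁻¹ * (k y * om (u t) y) :=
          setIntegral_congr_fun hDm hom
      _ = ν⁻¹ * ∫ y in Dm (v t') a (min R (R₁ / 2)) (max (ν⁻¹ * M) 1), k y * om (u t) y :=
          integral_const_mul _ _
      _ ≤ ν⁻¹ * ∫ y in Dm (u t) a R M, k y * om (u t) y := by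
          refine mul_le_mul_of_nonneg_left ?_ hνi.le
          exact setIntegral_mono_set (hint.mono_set hDsub)
            (Eventually.of_forall fun y => mul_nonneg (hk0 y) (len_nonneg _)) hsub.eventuallyLE
      _ ≤ ν⁻¹ * (ν * ε) := mul_le_mul_of_nonneg_left (hki.trans (min_le_right _ _)) hνi.le
      _ = ε := by field_simp
  · have h1 := hA γ l hl (cur_scale hνi hsub (fun z hz => vort_evD (hev z hz.1)) hγ)
    refine le_trans (mul_le_mul_of_nonneg_right ?_ hl.le) h1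
    have := min_le_left ε (ν * ε)
    linarith

lemma Dm_mono {v : V → V} {a : V} {R R' M : ℝ} (h : R ≤ R') : Dm v a R M ⊆ Dm v a R' M :=
  fun _ hy => ⟨hy.1.trans h, hy.2⟩

lemma BendsK.univ {T r : ℝ} {u : ℝ → V → V} {a : V} (hu : ∀ t ∈ Ioo 0 T, SM (u t)) (hr : 0 < r)
    (h : BendsK T (ball a r) u a) : BendsK T univ u a := by
  obtain ⟨ε, hε, h⟩ := h
  refine ⟨ε, hε, fun M T₀ R hT0 hT₀ hR _ => ?_⟩
  obtain ⟨t, ht, h⟩ := h M T₀ (min R (r / 2)) hT0 hT₀ (lt_min hR (by positivity))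
    (closedBall_subset_ball ((min_le_right _ _).trans_lt (by linarith)))
  refine ⟨t, ht, fun k hk hk0 hi => ?_⟩
  have hsub : Dm (u t) a (min R (r / 2)) M ⊆ Dm (u t) a R M := Dm_mono (min_le_left _ _)
  have hsm := hu t ⟨hT0.trans_lt ht.1, ht.2⟩
  obtain ⟨γ, l, hl, hγ, hlt⟩ := h k hk hk0 (le_trans (setIntegral_mono_set
    (kD_int hsm hk a R M) (Eventually.of_forall fun y => mul_nonneg (hk0 y) (len_nonneg _))
    hsub.eventuallyLE) hi)
  exact ⟨γ, l, hl, fun s hs => ⟨hsub (hγ s hs).1, (hγ s hs).2⟩, hlt⟩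

lemma slice_univ {T : ℝ} {u : ℝ → V → V}
    (hu : ContDiffOn ℝ ∞ (fun z : ℝ × V => u z.1 z.2) (Ioo 0 T ×ˢ univ)) {t : ℝ}
    (ht : t ∈ Ioo 0 T) : SM (u t) := by
  intro i
  have h1 : ContDiffOn ℝ ∞ (fun y : V => u t y i) Set.univ := by
    have h2 : ContDiffOn ℝ ∞ (fun z : ℝ × V => u z.1 z.2 i) (Ioo 0 T ×ˢ Set.univ) :=
      (contDiff_apply ℝ ℝ i).comp_contDiffOn hu
    exact h2.comp (f := fun y : V => (t, y)) (by fun_prop) fun y _ => ⟨ht, mem_univ _⟩
  exact contDiffOn_univ.1 h1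

theorem bendsKW (hTv : StmTvK) (hDom : StmDom) (hF : StmFar) (hS : StmWSc) {ν T E : ℝ}
    {u : ℝ → V → V} {p : ℝ → V → ℝ} (hν : 0 < ν) (h : WSl ν T E u p) :
    (Blow T u → ∃ a, Sing T u a) ∧ ∀ a, Sing T u a → BendsK T univ u a :=
  ⟨fun hB => sing_whole hF hS hν h hB,
    fun a hs => (bendsKD hTv hDom hν (whole_D h a) (mem_ball_self (by norm_num)) hs).univ
      (fun _ ht => slice_univ h.smooth_u ht) (by norm_num)⟩

theorem bendsKP (hTv : StmTvK) (hDom : StmDom) {ν T : ℝ} {u : ℝ → V → V} {p : ℝ → V → ℝ}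
    (hν : 0 < ν) (h : IsSol ν T u p) :
    (Blow T u → ∃ a, Sing T u a) ∧ ∀ a, Sing T u a → BendsK T univ u a := by
  refine ⟨fun hB => sing_per h hB, fun a hs => ?_⟩
  have hT : 0 < T := by
    obtain ⟨t, ht, -⟩ := hs 0 1 one_pos
    exact ht.1.trans ht.2
  obtain ⟨p', h'⟩ := perD hν hT h a
  exact (bendsKD hTv hDom hν h' (mem_ball_self (by norm_num)) hs).univ
    (fun _ ht => slice_univ (h.smooth_u.mono (prod_mono Ioo_subset_Ico_self subset_rfl)) ht)
    (by norm_num)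

end Pool.Agent.H2TV
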