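import Pool.Agent.H1TV.Defs
import Pool.Agent.Q85.CL.Defs2
import Pool.Agent.Q85.CL.MainD
import Pool.Agent.Q67.VD.Alg
import Pool.Agent.Q85.CL.PerD
import Pool.Agent.Q85.CL.Blow

/-!
Project TV: the direction of the vorticity turns along the vortex lines near the singular points
(with the local theorem as a hypothesis).
-/

set_option autoImplicit false

open MeasureTheory Set Metric Filter Topology
open scoped ContDiff
open H459R3.NS Pool.Agent.W268.NS Pool.Agent.Q67.VD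

namespace Pool.Agent.H2TV

open Pool.Agent.Q85.CC Pool.Agent.Q85.CL Pool.Agent.Q85.VL
open Pool.Agent.H1TV (xi Dm Turn StmTv)

/-- There is an `ε > 0` such that the direction turns by more than `ε` along arcs of the vortex
lines at which the vorticity is larger than any given number, near `a` and near the time `T`. -/
def TurnsAt (T : ℝ) (u : ℝ → V → V) (a : V) : Prop :=
  ∃ ε : ℝ, 0 < ε ∧ ∀ M T₀ R : ℝ, 0 ≤ T₀ → T₀ < T → 0 < R → ∃ t ∈ Ioo T₀ T, ∃ (p q : V) (l : ℝ),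
    Arc (vort (u t)) {y | ‖y - a‖ ≤ R ∧ M < om (u t) y} p q l ∧
      ε < len (xi (u t) q - xi (u t) p)

lemma unit_scale {c : ℝ} (hc : 0 < c) (z : V) : (len (c • z))⁻¹ • (c • z) = (len z)⁻¹ • z := by
  rw [len_smulI, abs_of_pos hc, smul_smul]
  congr 1
  rw [mul_inv]
  field_simp

/-- Arcs of proportional fields. -/
lemma arc_scale {z z' : V → V} {D D' : Set V} {c : ℝ} (hc : 0 < c) (hD : D ⊆ D')
    (hz : ∀ y ∈ D, z' y = c • z y) {p q : V} {l : ℝ} (h : Arc z' D p q l) : Arc z D' p q l := by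
  obtain ⟨hl, γ, h0, h1, h2⟩ := h
  refine ⟨hl, γ, h0, h1, fun s hs => ⟨hD (h2 s hs).1, ?_⟩⟩
  have h3 := (h2 s hs).2
  rwa [hz _ (h2 s hs).1, unit_scale hc] at h3

lemma arc_mem {z : V → V} {D : Set V} {p q : V} {l : ℝ} (h : Arc z D p q l) : p ∈ D ∧ q ∈ D := by
  obtain ⟨hl, γ, h0, h1, h2⟩ := h
  exact ⟨h0 ▸ (h2 0 ⟨le_rfl, hl.le⟩).1, h1 ▸ (h2 l ⟨hl.le, le_rfl⟩).1⟩

/-- The local theorem in open sets, general viscosity. -/
theorem turnsD (hTv : StmTv) (hDom : StmDom) {ν T E : ℝ} {Ω : Set V} {u : ℝ → V → V}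
    {p : ℝ → V → ℝ} (hν : 0 < ν) (h : DSl ν T E Ω u p) {a : V} (ha : a ∈ Ω) (hs : Sing T u a) :
    TurnsAt T u a := by
  have hT : 0 < T := by
    obtain ⟨t, ht, -⟩ := hs 0 1 one_pos
    exact ht.1.trans ht.2
  have hνi : 0 < ν⁻¹ := inv_pos.2 hν
  by_contra hcon
  unfold TurnsAt at hcon
  push Not at hcon
  obtain ⟨R₁, hR₁, hsub₁⟩ := nhds_basis_closedBall.mem_iff.1 (h.openO.mem_nhds ha)
  obtain ⟨E', v, q, hL, hv⟩ := hDom ν T E Ω u p hν hT h a R₁ hR₁ hsub₁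
  have hnb : ¬ ∃ B δ : ℝ, 0 < δ ∧ ∀ t ∈ Ioo 0 T, T - δ < t → ∀ x, ‖x - a‖ ≤ δ → ‖u t x‖ ≤ B := by
    rintro ⟨B, δ, hδ, h⟩
    obtain ⟨t, ht, htδ, x, hx, hB⟩ := hs B δ hδ
    exact absurd (h t ht htδ x hx) (not_le.2 hB)
  refine hnb (back hν hR₁ hT hv (hTv (ν * T) E' (ball a R₁) v q (mul_pos hν hT) hL a
    (mem_ball_self hR₁) ?_))
  intro ε hε
  obtain ⟨M, T₀, R, hT0, hT₀, hR, hle⟩ := hcon ε hε
  refine ⟨max (ν⁻¹ * M) 1, ν * T₀, min R (R₁ / 2), lt_max_of_lt_right one_pos,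
    mul_lt_mul_of_pos_left hT₀ hν, lt_min hR (by positivity), fun t' ht' ht'0 => ?_⟩
  obtain ⟨t, htd⟩ : ∃ t, t = t' / ν := ⟨_, rfl⟩
  have htν : ν * t = t' := by rw [htd]; field_simp
  have ht0 : 0 < t := by rw [htd]; positivity
  have ht : t ∈ Ioo T₀ T := by
    refine ⟨?_, ?_⟩
    · exact lt_of_mul_lt_mul_left (by rw [htν]; exact ht'.1) hν.le
    · exact lt_of_mul_lt_mul_left (by rw [htν]; exact ht'.2) hν.le
  have hI : t ∈ Ioo 0 T := ⟨ht0, ht.2⟩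
  have hev : ∀ y : V, ‖y - a‖ ≤ min R (R₁ / 2) → ∀ᶠ z in 𝓝 y, v t' z = ν⁻¹ • u t z := by
    intro y hy
    refine ball_ev (a := a) (R := R₁) (fun z hz => ?_) ?_
    · rw [← hv t hI z hz, htν]
    · rw [Metric.mem_ball, dist_eq_norm]
      exact hy.trans_lt ((min_le_right _ _).trans_lt (by linarith))
  have hsub : Dm (v t') a (min R (R₁ / 2)) (max (ν⁻¹ * M) 1)
      ⊆ {y | ‖y - a‖ ≤ R ∧ M < om (u t) y} := by
    intro y hy
    refine ⟨hy.1.trans (min_le_left _ _), ?_⟩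
    have e1 : ν⁻¹ * M < om (v t') y := (le_max_left _ _).trans_lt hy.2
    rw [om_evD hνi.le (hev y hy.1)] at e1
    exact lt_of_mul_lt_mul_left e1 hνi.le
  have hxi : ∀ y : V, ‖y - a‖ ≤ min R (R₁ / 2) → xi (v t') y = xi (u t) y := by
    intro y hy
    unfold xi om
    rw [vort_evD (hev y hy)]
    exact unit_scale hνi _
  intro x y l hxy
  have h1 := arc_mem hxy
  rw [hxi x h1.1.1, hxi y h1.2.1]
  exact hle t ht x y l (arc_scale hνi hsub (fun z hz => vort_evD (hev z hz.1)) hxy)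

theorem turnsW (hTv : StmTv) (hDom : StmDom) (hF : StmFar) (hS : StmWSc) {ν T E : ℝ}
    {u : ℝ → V → V} {p : ℝ → V → ℝ} (hν : 0 < ν) (h : WSl ν T E u p) :
    (Blow T u → ∃ a, Sing T u a) ∧ ∀ a, Sing T u a → TurnsAt T u a :=
  ⟨fun hB => sing_whole hF hS hν h hB,
    fun a hs => turnsD hTv hDom hν (whole_D h a) (mem_ball_self (by norm_num)) hs⟩

theorem turnsP (hTv : StmTv) (hDom : StmDom) {ν T : ℝ} {u : ℝ → V → V} {p : ℝ → V → ℝ}
    (hν : 0 < ν) (h : IsSol ν T u p) :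
    (Blow T u → ∃ a, Sing T u a) ∧ ∀ a, Sing T u a → TurnsAt T u a := by
  refine ⟨fun hB => sing_per h hB, fun a hs => ?_⟩
  have hT : 0 < T := by
    obtain ⟨t, ht, -⟩ := hs 0 1 one_pos
    exact ht.1.trans ht.2
  obtain ⟨p', h'⟩ := perD hν hT h a
  exact turnsD hTv hDom hν h' (mem_ball_self (by norm_num)) hs

end Pool.Agent.H2TV
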