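import Pool.Agent.H2TV.StrA

/-!
Project TV: curves in pieces.
-/

set_option autoImplicit false

open MeasureTheory Set Metric Filter Topology
open scoped ContDiff
open H459R3.NS Pool.Agent.W268.NS Pool.Agent.Q67.VD

namespace Pool.Agent.H2TV

open Pool.Agent.Q85.CC Pool.Agent.Q85.CL Pool.Agent.Q85.VL Pool.Agent.Q151.CC
open Pool.Agent.H1CV (dot_le_len' len_sq' len_le_norm norm_le_len md md_pos md_sq len_le_md
  len_pos_of_ne len_cross_le)
open Pool.Agent.H1TV (xi Dm)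

/-- An estimate on the pieces with a small integral of `k` gives an estimate on the whole. -/
lemma real_pieces {g k : ℝ → ℝ} {l G G' : ℝ} (hG : 0 ≤ G) (hl : 0 ≤ l)
    (hg : ContinuousOn g (Icc 0 l)) (hk : ContinuousOn k (Icc 0 l))
    (hk0 : ∀ s ∈ Icc (0 : ℝ) l, 0 ≤ k s)
    (h : ∀ a b, 0 ≤ a → a ≤ b → b ≤ l → ∫ s in a..b, k s ≤ 1 / 4 →
      ∫ s in a..b, g s ≤ G + G' * ∫ s in a..b, k s) :
    ∫ s in (0 : ℝ)..l, g s ≤ G * (1 + 4 * ∫ s in (0 : ℝ)..l, k s)
      + G' * ∫ s in (0 : ℝ)..l, k s := by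
  have hsub : ∀ a b, 0 ≤ a → a ≤ b → b ≤ l → Icc a b ⊆ Icc 0 l := fun a b ha _ hb =>
    Icc_subset_Icc ha hb
  have hgi : ∀ a b, 0 ≤ a → a ≤ b → b ≤ l → IntervalIntegrable g volume a b :=
    fun a b ha hab hb => ContinuousOn.intervalIntegrable (by
      rw [uIcc_of_le hab]
      exact hg.mono (hsub a b ha hab hb))
  have hki : ∀ a b, 0 ≤ a → a ≤ b → b ≤ l → IntervalIntegrable k volume a b :=
    fun a b ha hab hb => ContinuousOn.intervalIntegrable (by
      rw [uIcc_of_le hab]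
      exact hk.mono (hsub a b ha hab hb))
  have hkn : ∀ a b, 0 ≤ a → a ≤ b → b ≤ l → 0 ≤ ∫ s in a..b, k s := fun a b ha hab hb =>
    intervalIntegral.integral_nonneg hab fun s hs => hk0 s (hsub a b ha hab hb hs)
  have key : ∀ (n : ℕ) (a : ℝ), 0 ≤ a → a ≤ l → ∫ s in a..l, k s ≤ (n + 1) / 4 →
      ∫ s in a..l, g s ≤ G * (n + 1) + G' * ∫ s in a..l, k s := by
    intro n
    induction n with
    | zero =>
      intro a ha hal hka
      have := h a l ha hal le_rfl (by simpa using hka)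
      simpa using this
    | succ n ih =>
      intro a ha hal hka
      rcases le_total (∫ s in a..l, k s) (1 / 4) with h1 | h1
      · have h2 := h a l ha hal le_rfl h1
        have h3 : 0 ≤ G * (n + 1 : ℕ) := by positivity
        linarith
      · -- split
        have hcont : ContinuousOn (fun c => ∫ s in a..c, k s) (Icc a l) := by
          have := intervalIntegral.continuousOn_primitive_interval' (hki a l ha hal le_rfl)
            (left_mem_uIcc)
          rwa [uIcc_of_le hal] at this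
        obtain ⟨c, hc, hck⟩ := intermediate_value_Icc hal hcont
          (show (1 / 4 : ℝ) ∈ Icc (∫ s in a..a, k s) (∫ s in a..l, k s) by
            rw [intervalIntegral.integral_same]
            exact ⟨by norm_num, h1⟩)
        have hck' : ∫ s in a..c, k s = 1 / 4 := hck
        have e1 := intervalIntegral.integral_add_adjacent_intervals
          (hki a c ha hc.1 hc.2) (hki c l (ha.trans hc.1) hc.2 le_rfl)
        have e2 := intervalIntegral.integral_add_adjacent_intervals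
          (hgi a c ha hc.1 hc.2) (hgi c l (ha.trans hc.1) hc.2 le_rfl)
        have h2 := h a c ha hc.1 hc.2 hck'.le
        have h3 := ih c (ha.trans hc.1) hc.2 (by
          push_cast at hka
          linarith)
        rw [← e1, ← e2]
        push_cast
        rw [mul_add G']
        linarith
  have hK := hkn 0 l le_rfl hl le_rfl
  have hn := Nat.floor_le (mul_nonneg (by norm_num : (0 : ℝ) ≤ 4) hK)
  have hn' := (Nat.lt_floor_add_one (4 * ∫ s in (0 : ℝ)..l, k s)).le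
  have h1 := key ⌊4 * ∫ s in (0 : ℝ)..l, k s⌋₊ 0 le_rfl hl (by linarith)
  have h2 : G * ((⌊4 * ∫ s in (0 : ℝ)..l, k s⌋₊ : ℝ) + 1)
      ≤ G * (1 + 4 * ∫ s in (0 : ℝ)..l, k s) :=
    mul_le_mul_of_nonneg_left (by linarith) hG
  linarith

lemma near_curve {a b s₁ s₂ r : ℝ} {γ : ℝ → V} {x : V}
    (hq : ∀ s₁ s₂, a ≤ s₁ → s₁ ≤ s₂ → s₂ ≤ b → (s₂ - s₁) / 2 ≤ len (γ s₂ - γ s₁))
    (h1 : a ≤ s₁) (h12 : s₁ ≤ s₂) (h2 : s₂ ≤ b) (hx1 : ‖γ s₁ - x‖ ≤ r) (hx2 : ‖γ s₂ - x‖ ≤ r) :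
    s₂ - s₁ ≤ 8 * r := by
  have h3 := hq s₁ s₂ h1 h12 h2
  have h5 := len_le_norm (γ s₂ - γ s₁)
  have h6 : ‖γ s₂ - γ s₁‖ ≤ 2 * r := by
    have e : γ s₂ - γ s₁ = (γ s₂ - x) - (γ s₁ - x) := by abel
    rw [e]
    exact (norm_sub_le _ _).trans (by linarith)
  linarith

/-- The integral of the weight of the small cube along the pieces. -/
lemma hb_curve {a b ρ : ℝ} {γ : ℝ → V} {x : V} (hab : a ≤ b) (hρ : 0 < ρ)
    (hq : ∀ s₁ s₂, a ≤ s₁ → s₁ ≤ s₂ → s₂ ≤ b → (s₂ - s₁) / 2 ≤ len (γ s₂ - γ s₁)) :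
    ∫ s in a..b, hb x ρ (γ s) ≤ 16 := by
  obtain ⟨S, hS⟩ : ∃ S : Set ℝ, S = {s ∈ Icc a b | ‖γ s - x‖ < 2 * ρ} := ⟨_, rfl⟩
  have hsub : S ⊆ Icc a b := by
    rw [hS]
    exact sep_subset _ _
  have hdist : ∀ s ∈ S, ∀ s' ∈ S, edist s s' ≤ ENNReal.ofReal (16 * ρ) := by
    have key : ∀ s ∈ S, ∀ s' ∈ S, s ≤ s' → s' - s ≤ 16 * ρ := by
      intro s hs s' hs' hss
      rw [hS] at hs hs'
      have := near_curve hq hs.1.1 hss hs'.1.2 hs.2.le hs'.2.le
      linarith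
    intro s hs s' hs'
    rw [edist_dist, Real.dist_eq]
    refine ENNReal.ofReal_le_ofReal ?_
    rcases le_total s s' with h | h
    · rw [abs_sub_comm, abs_of_nonneg (by linarith)]
      exact key s hs s' hs' h
    · rw [abs_of_nonneg (by linarith)]
      exact key s' hs' s hs h
  have hvol : volume S ≤ ENNReal.ofReal (16 * ρ) :=
    (Real.volume_le_diam S).trans (Metric.ediam_le hdist)
  rw [intervalIntegral.integral_of_le hab, ← integral_Icc_eq_integral_Ioc,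
    setIntegral_eq_of_subset_of_forall_sdiff_eq_zero measurableSet_Icc hsub (fun s hs => ?_)]
  · have h1 := norm_setIntegral_le_of_norm_le_const (f := fun s => hb x ρ (γ s)) (C := 1 / ρ)
      (s := S) (μ := volume) (hvol.trans_lt ENNReal.ofReal_lt_top) (fun s _ => by
        rw [Real.norm_eq_abs, abs_of_nonneg (hb_nonneg x hρ _)]
        exact hb_le x hρ _)
    have h2 : volume.real S ≤ 16 * ρ := ENNReal.toReal_le_of_le_ofReal (by positivity) hvol
    calc ∫ s in S, hb x ρ (γ s) ≤ ‖∫ s in S, hb x ρ (γ s)‖ := le_abs_self _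
      _ ≤ 1 / ρ * volume.real S := h1
      _ ≤ 1 / ρ * (16 * ρ) := mul_le_mul_of_nonneg_left h2 (by positivity)
      _ = 16 := by field_simp
  · refine hb_zero hρ ?_
    by_contra hc
    exact hs.2 (by rw [hS]; exact ⟨hs.1, not_le.1 hc⟩)

/-- The integral of the radial weight along the pieces. -/
lemma hq_curve {v : V → V} (hv : SM v) {D : Set V} {l a b δ ρ m : ℝ} {γ : ℝ → V} {x : V}
    (hD : ∀ y ∈ D, 0 < om v y) (hγ : Cur v D γ l) (ha : 0 ≤ a) (hab : a ≤ b) (hb : b ≤ l)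
    (hδ : δ ≤ 1 / 2) (hch : (1 - δ) * (b - a) ≤ len (γ b - γ a)) (hρ : 0 < ρ) (hm : 0 < m) :
    ∫ s in a..b, hq v x ρ m (γ s) ≤ 4 + 2 * δ * (b - a) / ρ := by
  rcases hab.eq_or_lt with hE | hlt
  · subst hE
    rw [intervalIntegral.integral_same, sub_self, mul_zero, zero_div]
    norm_num
  have hsub : Icc a b ⊆ Icc 0 l := Icc_subset_Icc ha hb
  have hch0 : 0 < len (γ b - γ a) := lt_of_lt_of_le (by nlinarith) hch
  obtain ⟨e, he⟩ : ∃ e, e = (len (γ b - γ a))⁻¹ • (γ b - γ a) := ⟨_, rfl⟩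
  have he1 : e ⬝ᵥ e = 1 := by
    rw [he, smul_dotProduct, dotProduct_smul, ← len_sq', smul_eq_mul, smul_eq_mul]
    field_simp
  have hec : e ⬝ᵥ (γ b - γ a) = len (γ b - γ a) := by
    rw [he, smul_dotProduct, ← len_sq', smul_eq_mul]
    field_simp
  have hcont := (cur_cont hγ).mono hsub
  have hder : ∀ s ∈ Icc a b, HasDerivWithinAt
      (fun s => 2 * ((e ⬝ᵥ (γ s - x)) / md ρ (γ s - x)) + 2 / ρ * (s - e ⬝ᵥ γ s))
      (2 * ((e ⬝ᵥ xi v (γ s)) / md ρ (γ s - x)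
        - (e ⬝ᵥ (γ s - x)) * ((γ s - x) ⬝ᵥ xi v (γ s)) / md ρ (γ s - x) ^ 3)
          + 2 / ρ * (1 - e ⬝ᵥ xi v (γ s)))
      (Icc a b) s := by
    intro s hs
    have h0 := (hγ s (hsub hs)).2.mono hsub
    have h1 := (quo_deriv h0 x e hρ).const_mul 2
    have h2 := ((hasDerivWithinAt_id s (Icc a b)).sub (dot_deriv h0 e)).const_mul (2 / ρ)
    exact h1.add h2
  have h1 := intervalIntegral.integral_le_sub_of_hasDeriv_right_of_le (a := a) (b := b)
    (φ := fun s => hq v x ρ m (γ s)) hab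
    (fun s hs => (hder s hs).continuousWithinAt)
    (fun s hs => ((hder s (Ioo_subset_Icc_self hs)).hasDerivAt
      (Icc_mem_nhds hs.1 hs.2)).hasDerivWithinAt)
    (((hq_smooth hv x hρ hm).continuous.comp_continuousOn hcont).integrableOn_compact isCompact_Icc)
    (fun s hs => hq_ptS hρ (hD _ (hγ s (hsub (Ioo_subset_Icc_self hs))).1) he1)
  refine h1.trans ?_
  have hb : ∀ y : V, |(e ⬝ᵥ (y - x)) / md ρ (y - x)| ≤ 1 := by
    intro y
    have h2 := dot_le_len' e (y - x)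
    have h3 : len e = 1 := by rw [len, he1, Real.sqrt_one]
    rw [h3, one_mul] at h2
    rw [abs_div, abs_of_pos (md_pos hρ _), div_le_one (md_pos hρ _)]
    exact h2.trans (len_le_md _ _)
  have h2 := abs_le.1 (hb (γ b))
  have h3 := abs_le.1 (hb (γ a))
  have h4 : 2 / ρ * (b - e ⬝ᵥ γ b) - 2 / ρ * (a - e ⬝ᵥ γ a) ≤ 2 * δ * (b - a) / ρ := by
    have e2 : e ⬝ᵥ (γ b - γ a) = e ⬝ᵥ γ b - e ⬝ᵥ γ a := dotProduct_sub _ _ _
    have e1 : 2 / ρ * (b - e ⬝ᵥ γ b) - 2 / ρ * (a - e ⬝ᵥ γ a)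
        = 2 / ρ * ((b - a) - len (γ b - γ a)) := by
      rw [← hec, e2]
      ring
    rw [e1, div_mul_eq_mul_div]
    refine div_le_div_of_nonneg_right ?_ hρ.le
    linarith
  linarith

/-- The arcs are nearly straight, up to the integral of `k`. -/
def ArcK (v : V → V) (D : Set V) (e : ℝ) (k : V → ℝ) : Prop :=
  ∀ (γ : ℝ → V) (l : ℝ), 0 < l → Cur v D γ l →
    (1 - e - ∫ s in (0 : ℝ)..l, k (γ s)) * l ≤ len (γ l - γ 0)

/-- Sub-arcs. -/
lemma arcK_sub {v : V → V} {D : Set V} {e l s₁ s₂ : ℝ} {k : V → ℝ} {γ : ℝ → V}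
    (hT : ArcK v D e k) (hγ : Cur v D γ l) (h0 : 0 ≤ s₁) (h12 : s₁ ≤ s₂) (h2 : s₂ ≤ l) :
    (1 - e - ∫ s in s₁..s₂, k (γ s)) * (s₂ - s₁) ≤ len (γ s₂ - γ s₁) := by
  rcases h12.eq_or_lt with h | h
  · rw [h, sub_self, sub_self, mul_zero]
    exact len_nonneg _
  · have h3 := hT (fun s => γ (s₁ + s)) (s₂ - s₁) (by linarith) (fun s hs => by
      have h4 := hγ (s₁ + s) ⟨by linarith [hs.1], by linarith [hs.2]⟩
      refine ⟨h4.1, ?_⟩
      have h5 : HasDerivWithinAt (fun s : ℝ => s₁ + s) 1 (Icc 0 (s₂ - s₁)) s :=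
        (hasDerivWithinAt_id s _).const_add s₁
      have h6 := h4.2.scomp s h5 (fun s' hs' => ⟨by linarith [hs'.1], by linarith [hs'.2]⟩)
      rw [one_smul] at h6
      exact h6)
    simp only [add_zero, add_sub_cancel] at h3
    have e1 : ∫ s in (0 : ℝ)..(s₂ - s₁), k (γ (s₁ + s)) = ∫ s in s₁..s₂, k (γ s) := by
      rw [intervalIntegral.integral_comp_add_left (fun s => k (γ s)) s₁]
      simp
    rwa [e1] at h3

lemma arcK_half {v : V → V} {D : Set V} {e l a b : ℝ} {k : V → ℝ} {γ : ℝ → V}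
    (hT : ArcK v D e k) (he : e ≤ 1 / 4) (hk : Continuous k) (hk0 : ∀ y, 0 ≤ k y)
    (hγ : Cur v D γ l) (ha : 0 ≤ a) (hb : b ≤ l) (hab : ∫ s in a..b, k (γ s) ≤ 1 / 4)
    {s₁ s₂ : ℝ} (h1 : a ≤ s₁) (h12 : s₁ ≤ s₂) (h2 : s₂ ≤ b) :
    (s₂ - s₁) / 2 ≤ len (γ s₂ - γ s₁) := by
  have h3 := arcK_sub hT hγ (ha.trans h1) h12 (h2.trans hb)
  have hint : ∀ c d, 0 ≤ c → c ≤ d → d ≤ l → IntervalIntegrable (fun s => k (γ s)) volume c d :=
    fun c d hc hcd hd => ContinuousOn.intervalIntegrable (by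
      rw [uIcc_of_le hcd]
      exact hk.comp_continuousOn ((cur_cont hγ).mono (Icc_subset_Icc hc hd)))
  have h4 : ∫ s in s₁..s₂, k (γ s) ≤ ∫ s in a..b, k (γ s) := by
    apply intervalIntegral.integral_mono_interval h1 h12 h2
    · exact ae_of_all _ fun s => hk0 _
    · exact hint a b ha (h1.trans (h12.trans h2)) hb
  have h5 : (1 - e - ∫ s in s₁..s₂, k (γ s)) ≥ 1 / 2 := by linarith
  nlinarith

/-- The weight of the small cube along the arcs. -/
lemma arcs_b {v : V → V} {x : V} {R m e l ρ : ℝ} {k : V → ℝ} {γ : ℝ → V}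
    (hT : ArcK v (Dm v x R m) e k) (he : e ≤ 1 / 4) (hk : Continuous k) (hk0 : ∀ y, 0 ≤ k y)
    (hR : 0 < R) (hl : 0 < l) (hγ : Cur v (Dm v x R m) γ l) (hρ : 0 < ρ) :
    (∫ s in (0 : ℝ)..l, hb x ρ (γ s)) + 16 / (8 * R) * l
      ≤ 2 * 16 + 128 * ∫ s in (0 : ℝ)..l, k (γ s) := by
  have hcont := cur_cont hγ
  have hkc : ContinuousOn (fun s => k (γ s)) (Icc 0 l) := hk.comp_continuousOn hcont
  have h1 := real_pieces (g := fun s => hb x ρ (γ s)) (G := 16) (G' := 0) (by norm_num) hl.le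
    ((hb_cont x ρ).comp_continuousOn hcont) hkc (fun s _ => hk0 _) (fun a b ha hab hb' hK => by
      have := hb_curve (γ := γ) (x := x) hab hρ (fun s₁ s₂ h1 h12 h2 =>
        arcK_half hT he hk hk0 hγ ha hb' hK h1 h12 h2)
      linarith)
  have h2 := real_pieces (g := fun _ => (1 : ℝ)) (G := 8 * R) (G' := 0) (by positivity) hl.le
    continuousOn_const hkc (fun s _ => hk0 _) (fun a b ha hab hb' hK => by
      have := near_curve (γ := γ) (x := x) (r := R) (fun s₁ s₂ h1 h12 h2 =>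
        arcK_half hT he hk hk0 hγ ha hb' hK h1 h12 h2) le_rfl hab le_rfl
        (hγ a ⟨ha, hab.trans hb'⟩).1.1 (hγ b ⟨ha.trans hab, hb'⟩).1.1
      simp only [intervalIntegral.integral_const, smul_eq_mul, mul_one]
      linarith)
  simp only [intervalIntegral.integral_const, smul_eq_mul, mul_one, sub_zero] at h2
  have h3 : 16 / (8 * R) * l ≤ 16 * (1 + 4 * ∫ s in (0 : ℝ)..l, k (γ s)) := by
    rw [div_mul_eq_mul_div, div_le_iff₀ (by positivity)]
    nlinarith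
  linarith

/-- The radial weight along the arcs. -/
lemma arcs_q {v : V → V} (hv : SM v) {x : V} {R m e l ρ : ℝ} {k : V → ℝ} {γ : ℝ → V}
    (hT : ArcK v (Dm v x R m) e k) (he0 : 0 ≤ e) (he : e ≤ 1 / 4) (hk : Continuous k)
    (hk0 : ∀ y, 0 ≤ k y) (hR : 0 < R) (hm : 0 < m) (hl : 0 < l) (hγ : Cur v (Dm v x R m) γ l)
    (hρ : 0 < ρ) (heρ : 2 * e * (8 * R) / ρ ≤ 1) :
    (∫ s in (0 : ℝ)..l, hq v x ρ m (γ s)) + 5 / (8 * R) * l
      ≤ 2 * 5 + (40 + 16 * R / ρ) * ∫ s in (0 : ℝ)..l, k (γ s) := by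
  have hcont := cur_cont hγ
  have hkc : ContinuousOn (fun s => k (γ s)) (Icc 0 l) := hk.comp_continuousOn hcont
  have hlen : ∀ a b, 0 ≤ a → a ≤ b → b ≤ l → ∫ s in a..b, k (γ s) ≤ 1 / 4 →
      b - a ≤ 8 * R := fun a b ha hab hb' hK =>
    near_curve (γ := γ) (x := x) (r := R) (fun s₁ s₂ h1 h12 h2 =>
      arcK_half hT he hk hk0 hγ ha hb' hK h1 h12 h2) le_rfl hab le_rfl
      (hγ a ⟨ha, hab.trans hb'⟩).1.1 (hγ b ⟨ha.trans hab, hb'⟩).1.1
  have h1 := real_pieces (g := fun s => hq v x ρ m (γ s)) (G := 5) (G' := 16 * R / ρ)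
    (by norm_num) hl.le ((hq_smooth hv x hρ hm).continuous.comp_continuousOn hcont) hkc
    (fun s _ => hk0 _) (fun a b ha hab hb' hK => by
      have hK0 : 0 ≤ ∫ s in a..b, k (γ s) := intervalIntegral.integral_nonneg hab fun s _ => hk0 _
      have h2 := hq_curve hv (fun y hy => hm.trans hy.2) hγ ha hab hb' (x := x)
        (δ := e + ∫ s in a..b, k (γ s)) (by linarith)
        (by
          have := arcK_sub hT hγ ha hab hb'
          rwa [sub_sub] at this) hρ hm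
      refine h2.trans ?_
      have h3 : 2 * (e + ∫ s in a..b, k (γ s)) * (b - a) / ρ
          ≤ 2 * (e + ∫ s in a..b, k (γ s)) * (8 * R) / ρ := by
        refine div_le_div_of_nonneg_right ?_ hρ.le
        exact mul_le_mul_of_nonneg_left (hlen a b ha hab hb' hK) (by positivity)
      have h4 : 2 * (e + ∫ s in a..b, k (γ s)) * (8 * R) / ρ
          = 2 * e * (8 * R) / ρ + 16 * R / ρ * ∫ s in a..b, k (γ s) := by
        field_simp
        ring
      linarith)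
  have h2 := real_pieces (g := fun _ => (1 : ℝ)) (G := 8 * R) (G' := 0) (by positivity) hl.le
    continuousOn_const hkc (fun s _ => hk0 _) (fun a b ha hab hb' hK => by
      have := hlen a b ha hab hb' hK
      simp only [intervalIntegral.integral_const, smul_eq_mul, mul_one]
      linarith)
  simp only [intervalIntegral.integral_const, smul_eq_mul, mul_one, sub_zero] at h2
  have h3 : 5 / (8 * R) * l ≤ 5 * (1 + 4 * ∫ s in (0 : ℝ)..l, k (γ s)) := by
    rw [div_mul_eq_mul_div, div_le_iff₀ (by positivity)]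
    nlinarith
  rw [add_mul]
  linarith

end Pool.Agent.H2TV
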