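import Pool.Agent.H2TV.FinK
import Mathlib.Topology.TietzeExtension

/-!
Project TV: functions which are continuous only where the vorticity is large.
-/

set_option autoImplicit false

open MeasureTheory Set Metric Filter Topology
open scoped ContDiff ENNReal
open H459R3.NS Pool.Agent.W268.NS Pool.Agent.Q67.VD

namespace Pool.Agent.H2TV

open Pool.Agent.Q85.CC Pool.Agent.Q85.CL Pool.Agent.Q85.VL
open Pool.Agent.H1TV (xi Dm StrK StrA)

/-- There is an `ε > 0` such that near `a` and near the time `T` the arcs of the vortex lines at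
which the vorticity is larger than any given number are not nearly straight up to a function of
flux at most `ε`. -/
def BendsL (T : ℝ) (Ω : Set V) (u : ℝ → V → V) (a : V) : Prop :=
  ∃ ε : ℝ, 0 < ε ∧ ∀ M T₀ R : ℝ, 0 ≤ T₀ → T₀ < T → 0 < R → closedBall a R ⊆ Ω →
    ∃ t ∈ Ioo T₀ T, ∀ k : V → ℝ, ContinuousOn k (Dm (u t) a R M) →
      (∀ y ∈ Dm (u t) a R M, 0 ≤ k y) →
      ∫⁻ y in Dm (u t) a R M, ENNReal.ofReal (k y * om (u t) y) ≤ ENNReal.ofReal ε →
      ∃ (γ : ℝ → V) (l : ℝ), 0 < l ∧ Cur (u t) (Dm (u t) a R M) γ l ∧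
        len (γ l - γ 0) < (1 - ε - ∫ s in (0 : ℝ)..l, k (γ s)) * l

theorem bendsL {T : ℝ} {Ω : Set V} {u : ℝ → V → V} {a : V}
    (hu : ∀ t ∈ Ioo 0 T, ContinuousOn (om (u t)) Ω) (h : BendsK T Ω u a) : BendsL T Ω u a := by
  obtain ⟨ε, hε, h⟩ := h
  refine ⟨ε, hε, fun M T₀ R hT0 hT₀ hR hRΩ => ?_⟩
  obtain ⟨t, ht, h⟩ := h (max (2 * M) 1) T₀ R hT0 hT₀ hR hRΩ
  refine ⟨t, ht, fun k hk hk0 hki => ?_⟩
  have ho : ContinuousOn (om (u t)) (closedBall a R) := (hu t ⟨hT0.trans_lt ht.1, ht.2⟩).mono hRΩ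
  obtain ⟨M', hM'⟩ : ∃ M', M' = max (2 * M) 1 := ⟨_, rfl⟩
  rw [← hM'] at h
  have hM1 : 1 ≤ M' := by rw [hM']; exact le_max_right _ _
  have hM2 : 2 * M ≤ M' := by rw [hM']; exact le_max_left _ _
  have hMM : M < M' := by linarith
  obtain ⟨F, hF⟩ : ∃ F, F = closedBall a R ∩ om (u t) ⁻¹' Ici M' := ⟨_, rfl⟩
  have hFc : IsClosed F := by
    rw [hF]
    exact ho.preimage_isClosed_of_isClosed isClosed_closedBall isClosed_Ici
  have hFD : F ⊆ Dm (u t) a R M := by
    intro y hy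
    rw [hF] at hy
    refine ⟨?_, hMM.trans_le hy.2⟩
    have := hy.1
    rwa [mem_closedBall, dist_eq_norm] at this
  have hDF : Dm (u t) a R M' ⊆ F := by
    intro y hy
    rw [hF]
    refine ⟨?_, hy.2.le⟩
    rw [mem_closedBall, dist_eq_norm]
    exact hy.1
  obtain ⟨g, hg⟩ := ContinuousMap.exists_restrict_eq hFc
    (⟨F.domRestrict k, continuousOn_iff_continuous_domRestrict.1 (hk.mono hFD)⟩ : C(F, ℝ))
  have hgk : ∀ y ∈ F, g y = k y := by
    intro y hy
    exact DFunLike.congr_fun hg ⟨y, hy⟩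
  obtain ⟨k', hk'⟩ : ∃ k' : V → ℝ, k' = fun y => max (g y) 0 := ⟨_, rfl⟩
  have hkc : Continuous k' := by rw [hk']; exact g.continuous.max continuous_const
  have hk'0 : ∀ y, 0 ≤ k' y := fun y => by rw [hk']; exact le_max_right _ _
  have hkk : ∀ y ∈ F, k' y = k y := by
    intro y hy
    rw [hk']
    show max (g y) 0 = k y
    rw [hgk y hy, max_eq_left (hk0 y (hFD hy))]
  have hDD : Dm (u t) a R M' ⊆ Dm (u t) a R M := hDF.trans hFD
  have hDB : Dm (u t) a R M' ⊆ closedBall a R := Dm_sub _ _ _ _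
  have hDm : MeasurableSet (Dm (u t) a R M') := by
    have e : Dm (u t) a R M' = closedBall a R \ (closedBall a R ∩ om (u t) ⁻¹' Iic M') := by
      ext y
      constructor
      · intro hy
        have h1 : y ∈ closedBall a R := hDB hy
        exact ⟨h1, fun h2 => absurd hy.2 (not_lt.2 h2.2)⟩
      · intro hy
        have h1 := hy.1
        rw [mem_closedBall, dist_eq_norm] at h1
        refine ⟨h1, ?_⟩
        by_contra h2
        exact hy.2 ⟨hy.1, not_lt.1 h2⟩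
    rw [e]
    exact isClosed_closedBall.measurableSet.diff
      (ho.preimage_isClosed_of_isClosed isClosed_closedBall isClosed_Iic).measurableSet
  obtain ⟨γ, l, hl, hγ, hlt⟩ := h k' hkc hk'0 (by
    rw [integral_eq_lintegral_of_nonneg_ae (f := fun y => k' y * om (u t) y)
      (Eventually.of_forall fun y => mul_nonneg (hk'0 y) (len_nonneg _))
      (((hkc.continuousOn.mul ho).aestronglyMeasurable
        isClosed_closedBall.measurableSet).mono_set hDB)]
    refine ENNReal.toReal_le_of_le_ofReal hε.le (le_trans ?_ hki)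
    rw [setLIntegral_congr_fun hDm (g := fun y => ENNReal.ofReal (k y * om (u t) y))
      (fun y hy => by
        show ENNReal.ofReal (k' y * om (u t) y) = ENNReal.ofReal (k y * om (u t) y)
        rw [hkk y (hDF hy)])]
    exact lintegral_mono_set hDD)
  refine ⟨γ, l, hl, fun s hs => ⟨hDD (hγ s hs).1, (hγ s hs).2⟩, ?_⟩
  have e : ∫ s in (0 : ℝ)..l, k' (γ s) = ∫ s in (0 : ℝ)..l, k (γ s) := by
    refine intervalIntegral.integral_congr fun s hs => ?_
    rw [uIcc_of_le hl.le] at hs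
    exact hkk _ (hDF (hγ s hs).1)
  rwa [e] at hlt

/-! ### The regularity of the vorticity -/

lemma pd_cdOn {f : V → ℝ} {Ω : Set V} (hΩ : IsOpen Ω) (hf : ContDiffOn ℝ ∞ f Ω) (j : Fin 3) :
    ContDiffOn ℝ 1 (pd j f) Ω :=
  (hf.fderiv_of_isOpen hΩ (m := 1) (by norm_cast)).clm_apply contDiffOn_const

lemma vort_cdOn {v : V → V} {Ω : Set V} (hΩ : IsOpen Ω) (hv : ContDiffOn ℝ ∞ v Ω) :
    ContDiffOn ℝ 1 (vort v) Ω := by
  have hvi : ∀ i : Fin 3, ContDiffOn ℝ ∞ (fun y => v y i) Ω := fun i =>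
    (contDiff_apply ℝ ℝ i).comp_contDiffOn hv
  have h : ∀ a b c d : Fin 3, ContDiffOn ℝ 1 (fun y => gradM v y a b - gradM v y c d) Ω :=
    fun a b c d => (pd_cdOn hΩ (hvi b) a).sub (pd_cdOn hΩ (hvi d) c)
  refine contDiffOn_pi.2 fun i => ?_
  fin_cases i
  · exact h 1 2 2 1
  · exact h 2 0 0 2
  · exact h 0 1 1 0

lemma om_contOn {v : V → V} {Ω : Set V} (hv : ContDiffOn ℝ 1 (vort v) Ω) :
    ContinuousOn (om v) Ω := by
  have hi : ∀ i : Fin 3, ContinuousOn (fun y => vort v y i) Ω := fun i =>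
    (continuous_apply i).comp_continuousOn hv.continuousOn
  unfold om len
  refine ContinuousOn.sqrt ?_
  simp only [Pool.Agent.Q151.CC.dot3]
  fun_prop

lemma slice_cdOn {T : ℝ} {Ω : Set V} {u : ℝ → V → V} (hΩ : IsOpen Ω)
    (hu : ContDiffOn ℝ ∞ (fun z : ℝ × V => u z.1 z.2) (Ioo 0 T ×ˢ Ω)) {t : ℝ} (ht : t ∈ Ioo 0 T) :
    ContDiffOn ℝ 1 (vort (u t)) Ω :=
  vort_cdOn hΩ (hu.comp (f := fun y : V => (t, y)) (by fun_prop) fun _ hy => ⟨ht, hy⟩)

end Pool.Agent.H2TV
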